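import Mathlib

/-!
# The deviation of a counting vector
-/

set_option autoImplicit false

open Finset

namespace Q257.Champ

section

variable {D : ℕ} [NeZero D]

/-- the number of the `p` in `P` with `y p = v` -/
noncomputable def cnt (y : ℕ → ZMod D) (P : Finset ℕ) (v : ZMod D) : ℝ :=
  ((P.filter (fun p => y p = v)).card : ℝ)

lemma sum_cnt (y : ℕ → ZMod D) (P : Finset ℕ) : ∑ v, cnt y P v = P.card := by
  unfold cnt
  rw [← Nat.cast_sum, ← card_eq_sum_card_fiberwise (f := y) (s := P) (t := univ)]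
  intro x _
  simp

lemma cnt_nonneg (y : ℕ → ZMod D) (P : Finset ℕ) (v : ZMod D) : 0 ≤ cnt y P v := by
  unfold cnt; positivity

/-- the centered counting vector -/
noncomputable def vec (y : ℕ → ZMod D) (P : Finset ℕ) : EuclideanSpace ℝ (ZMod D) :=
  WithLp.toLp 2 (fun v => cnt y P v - (P.card : ℝ) / D)

/-- the deviation -/
noncomputable def dev (y : ℕ → ZMod D) (P : Finset ℕ) : ℝ := ‖vec y P‖

lemma dev_nonneg (y : ℕ → ZMod D) (P : Finset ℕ) : 0 ≤ dev y P := norm_nonneg _

lemma dev_sq (y : ℕ → ZMod D) (P : Finset ℕ) :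
    dev y P ^ 2 = ∑ v, (cnt y P v - (P.card : ℝ) / D) ^ 2 := by
  unfold dev vec
  rw [EuclideanSpace.norm_sq_eq]
  simp

lemma dev_sq_eq (y : ℕ → ZMod D) (P : Finset ℕ) :
    dev y P ^ 2 = ∑ v, cnt y P v ^ 2 - (P.card : ℝ) ^ 2 / D := by
  have hD : (D : ℝ) ≠ 0 := by exact_mod_cast NeZero.ne D
  rw [dev_sq]
  have h1 : ∀ v, (cnt y P v - (P.card : ℝ) / D) ^ 2 =
      cnt y P v ^ 2 - 2 * ((P.card : ℝ) / D) * cnt y P v + ((P.card : ℝ) / D) ^ 2 := by
    intro v; ring
  simp only [h1, sum_add_distrib, sum_sub_distrib, ← mul_sum, sum_cnt, sum_const, card_univ,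
    ZMod.card, nsmul_eq_mul]
  field_simp
  ring

lemma dev_union_le (y : ℕ → ZMod D) (P Q : Finset ℕ) (h : Disjoint P Q) :
    dev y (P ∪ Q) ≤ dev y P + dev y Q := by
  have h1 : vec y (P ∪ Q) = vec y P + vec y Q := by
    ext v
    simp only [vec, PiLp.add_apply]
    unfold cnt
    rw [filter_union, card_union_of_disjoint (disjoint_filter_filter h), card_union_of_disjoint h]
    push_cast
    ring
  unfold dev
  rw [h1]
  exact norm_add_le _ _

lemma dev_le_card (y : ℕ → ZMod D) (P : Finset ℕ) : dev y P ≤ P.card := by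
  have h1 : dev y P ^ 2 ≤ (P.card : ℝ) ^ 2 := by
    rw [dev_sq_eq]
    have h2 : (0 : ℝ) ≤ (P.card : ℝ) ^ 2 / D := by positivity
    have h3 : ∑ v, cnt y P v ^ 2 ≤ (P.card : ℝ) ^ 2 := by
      have h4 : ∀ v, cnt y P v ^ 2 ≤ P.card * cnt y P v := by
        intro v
        have h5 : cnt y P v ≤ P.card := by
          unfold cnt
          exact_mod_cast card_filter_le _ _
        nlinarith [cnt_nonneg y P v]
      refine (sum_le_sum fun v _ => h4 v).trans ?_
      rw [← mul_sum, sum_cnt]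
      apply le_of_eq
      ring
    linarith
  exact (pow_le_pow_iff_left₀ (dev_nonneg y P) (by positivity) two_ne_zero).1 h1

lemma sum_cnt_sq (y : ℕ → ZMod D) (P : Finset ℕ) :
    ∑ v, cnt y P v ^ 2 = ∑ p ∈ P, ((P.filter (fun q => y q = y p)).card : ℝ) := by
  have h1 : ∀ v, cnt y P v ^ 2 = ∑ p ∈ P, if y p = v then cnt y P v else 0 := by
    intro v
    rw [← sum_filter, sum_const, nsmul_eq_mul]
    unfold cnt
    ring
  simp only [h1]
  rw [sum_comm]
  refine sum_congr rfl fun p _ => ?_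
  rw [sum_ite_eq]
  simp only [mem_univ, if_true]
  rfl

/-- The correlation of the counting vector with its shift. -/
lemma corr (y : ℕ → ZMod D) (P : Finset ℕ) (u : ZMod D) :
    |∑ v, cnt y P v * cnt y P (v - u) - (P.card : ℝ) ^ 2 / D| ≤ dev y P ^ 2 := by
  have hD : (D : ℝ) ≠ 0 := by exact_mod_cast NeZero.ne D
  have hs : ∀ g : ZMod D → ℝ, ∑ v, g (v - u) = ∑ v, g v := fun g =>
    Equiv.sum_comp (Equiv.subRight u) g
  have h1 : ∑ v, cnt y P v * cnt y P (v - u) - (P.card : ℝ) ^ 2 / D =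
      ∑ v, (cnt y P v - (P.card : ℝ) / D) * (cnt y P (v - u) - (P.card : ℝ) / D) := by
    have h2 : ∀ v, (cnt y P v - (P.card : ℝ) / D) * (cnt y P (v - u) - (P.card : ℝ) / D) =
        cnt y P v * cnt y P (v - u) - ((P.card : ℝ) / D) * cnt y P v -
          ((P.card : ℝ) / D) * cnt y P (v - u) + ((P.card : ℝ) / D) ^ 2 := by
      intro v; ring
    simp only [h2, sum_add_distrib, sum_sub_distrib, ← mul_sum, hs (cnt y P), sum_cnt, sum_const,
      card_univ, ZMod.card, nsmul_eq_mul]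
    field_simp
    ring
  rw [h1, dev_sq]
  refine (abs_sum_le_sum_abs _ _).trans ?_
  have h3 : ∀ v, |(cnt y P v - (P.card : ℝ) / D) * (cnt y P (v - u) - (P.card : ℝ) / D)| ≤
      ((cnt y P v - (P.card : ℝ) / D) ^ 2 + (cnt y P (v - u) - (P.card : ℝ) / D) ^ 2) / 2 := by
    intro v
    rw [abs_le]
    constructor
    · nlinarith [sq_nonneg ((cnt y P v - (P.card : ℝ) / D) + (cnt y P (v - u) - (P.card : ℝ) / D))]
    · nlinarith [sq_nonneg ((cnt y P v - (P.card : ℝ) / D) - (cnt y P (v - u) - (P.card : ℝ) / D))]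
  refine (sum_le_sum fun v _ => h3 v).trans ?_
  rw [← sum_div, sum_add_distrib, hs (fun v => (cnt y P v - (P.card : ℝ) / D) ^ 2)]
  apply le_of_eq
  ring

/-- the number of the pairs with a given difference -/
lemma card_diff (y : ℕ → ZMod D) (P : Finset ℕ) (u : ZMod D) :
    (((P ×ˢ P).filter (fun pq : ℕ × ℕ => y pq.1 - y pq.2 = u)).card : ℝ) =
      ∑ v, cnt y P v * cnt y P (v - u) := by
  have h1 : ∀ v, cnt y P v * cnt y P (v - u) = ∑ p ∈ P, if y p = v then cnt y P (v - u) else 0 := by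
    intro v
    rw [← sum_filter, sum_const, nsmul_eq_mul]
    rfl
  simp only [h1]
  rw [sum_comm]
  simp only [sum_ite_eq, mem_univ, if_true]
  rw [card_filter, sum_product]
  push_cast
  refine sum_congr rfl fun p _ => ?_
  unfold cnt
  rw [card_filter]
  push_cast
  refine sum_congr rfl fun q _ => ?_
  have h2 : (y p - y q = u) ↔ (y q = y p - u) := by
    constructor
    · rintro rfl; ring
    · intro h; rw [h]; ring
  simp only [h2]

end

end Q257.Champ
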