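import Mathlib

/-!
# The binary Champernowne number and weak pair correlations
-/

set_option autoImplicit false

namespace Q257.Champ

/-- the total number of the binary digits of `1, 2, …, n` -/
def ell (n : ℕ) : ℕ := ∑ m ∈ Finset.range (n + 1), Nat.size m

/-- The binary Champernowne number `0.1 10 11 100 101 110 …`: the digits of `n` are at the places
`ell (n - 1) + 1, …, ell n` behind the binary point, so that `n` contributes `n / 2 ^ ell n`. -/
noncomputable def champ : ℝ := ∑' n : ℕ, (n : ℝ) / 2 ^ ell n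

/-- `R x β s N`: the number of the pairs `(l, m)`, `1 ≤ l, m ≤ N`, `l ≠ m`, such that the distance of
`x l - x m` to the nearest integer is at most `s N ^ (-β)`. -/
noncomputable def pairs (x : ℕ → ℝ) (β s : ℝ) (N : ℕ) : ℕ :=
  ((Finset.Icc 1 N ×ˢ Finset.Icc 1 N).filter (fun lm : ℕ × ℕ => lm.1 ≠ lm.2 ∧
    |x lm.1 - x lm.2 - round (x lm.1 - x lm.2)| ≤ s * (N : ℝ) ^ (-β))).card

/-- The sequence `x 1, x 2, …` of real numbers (modulo one) has weak pair correlations. -/
def HasWeakPairCorrelations (x : ℕ → ℝ) : Prop :=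
  ∃ β : ℝ, 0 < β ∧ β < 1 ∧ ∀ s : ℝ, 0 ≤ s → Filter.Tendsto
    (fun N : ℕ => (N : ℝ) ^ (-(2 - β)) * (pairs x β s N : ℝ)) Filter.atTop (nhds (2 * s))

end Q257.Champ
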