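import Mathlib
import Pool.Agent.Q257.Champ.Defs

/-!
# The fractional parts `{2 ^ p α}` of the binary Champernowne number `α`
-/

set_option autoImplicit false

open Finset

namespace Q257.Champ

lemma ell_succ (n : ℕ) : ell (n + 1) = ell n + Nat.size (n + 1) := by
  unfold ell
  rw [sum_range_succ]

lemma ell_mono : Monotone ell := monotone_nat_of_le_succ fun n => by rw [ell_succ]; omega

lemma le_ell (n : ℕ) : n ≤ ell n := by
  induction n with
  | zero => simp
  | succ n ih =>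
    rw [ell_succ]
    have : 0 < Nat.size (n + 1) := Nat.size_pos.2 (by omega)
    omega

/-- the terms of the tail `{2 ^ (ell m) α}` -/
noncomputable def tt (m n : ℕ) : ℝ := ((m + 1 + n : ℕ) : ℝ) / 2 ^ (ell (m + 1 + n) - ell m)

lemma tt_nonneg (m n : ℕ) : 0 ≤ tt m n := by unfold tt; positivity

lemma sum_tt (m K : ℕ) : ∑ n ∈ range K, tt m n ≤ 1 - 1 / 2 ^ (ell (m + K) - ell m) := by
  induction K with
  | zero => simp
  | succ K ih =>
    rw [sum_range_succ]
    have h1 : ell (m + (K + 1)) - ell m = (ell (m + K) - ell m) + Nat.size (m + K + 1) := by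
      have h2 : ell (m + (K + 1)) = ell (m + K) + Nat.size (m + K + 1) := ell_succ _
      have h3 : ell m ≤ ell (m + K) := ell_mono (by omega)
      omega
    have h4 : tt m K = ((m + K + 1 : ℕ) : ℝ) / 2 ^ (ell (m + (K + 1)) - ell m) := by
      unfold tt
      rw [show m + 1 + K = m + K + 1 by ring, show m + (K + 1) = m + K + 1 by ring]
    rw [h4, h1, pow_add]
    have h5 : ((m + K + 1 : ℕ) : ℝ) + 1 ≤ 2 ^ Nat.size (m + K + 1) := by
      have := Nat.lt_size_self (m + K + 1)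
      exact_mod_cast this
    set A : ℝ := 2 ^ (ell (m + K) - ell m) with hA
    set B : ℝ := 2 ^ Nat.size (m + K + 1) with hB
    have hA0 : 0 < A := by rw [hA]; positivity
    have hB0 : 0 < B := by rw [hB]; positivity
    have h6 : ((m + K + 1 : ℕ) : ℝ) / (A * B) ≤ (B - 1) / (A * B) := by gcongr; linarith
    have h7 : (B - 1) / (A * B) = 1 / A - 1 / (A * B) := by field_simp
    linarith

lemma summable_tt (m : ℕ) : Summable (tt m) :=
  summable_of_sum_range_le (c := 1) (tt_nonneg m) fun K => (sum_tt m K).trans (by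
    have : (0 : ℝ) ≤ 1 / 2 ^ (ell (m + K) - ell m) := by positivity
    linarith)

/-- the fractional part of `2 ^ (ell m) α` -/
noncomputable def tau (m : ℕ) : ℝ := ∑' n, tt m n

lemma tau_nonneg (m : ℕ) : 0 ≤ tau m := tsum_nonneg (tt_nonneg m)

lemma tau_le_one (m : ℕ) : tau m ≤ 1 := by
  refine (summable_tt m).tsum_le_of_sum_range_le fun K => (sum_tt m K).trans ?_
  have : (0 : ℝ) ≤ 1 / 2 ^ (ell (m + K) - ell m) := by positivity
  linarith

lemma tau_rec (m : ℕ) : tau m = ((m + 1 : ℕ) + tau (m + 1)) / 2 ^ Nat.size (m + 1) := by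
  unfold tau
  rw [(summable_tt m).tsum_eq_zero_add]
  have h0 : tt m 0 = ((m + 1 : ℕ) : ℝ) / 2 ^ Nat.size (m + 1) := by
    unfold tt
    rw [show ell (m + 1 + 0) - ell m = Nat.size (m + 1) by
      rw [add_zero, ell_succ]; omega]
  have h1 : ∀ n, tt m (n + 1) = tt (m + 1) n / 2 ^ Nat.size (m + 1) := by
    intro n
    unfold tt
    have h2 : ell (m + 1 + (n + 1)) - ell m = (ell (m + 1 + 1 + n) - ell (m + 1)) + Nat.size (m + 1) := by
      have h3 := ell_succ m
      have h4 : ell (m + 1) ≤ ell (m + 1 + 1 + n) := ell_mono (by omega)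
      rw [show m + 1 + (n + 1) = m + 1 + 1 + n by ring]
      omega
    rw [h2, pow_add, show m + 1 + (n + 1) = m + 1 + 1 + n by ring, div_div]
  simp only [h1]
  rw [h0, tsum_div_const, add_div]

lemma tau_lt_one (m : ℕ) : tau m < 1 := by
  have key : ∀ m, tau m = 1 → m + 1 + 1 = 2 ^ Nat.size (m + 1) ∧ tau (m + 1) = 1 := by
    intro m h
    have h1 := tau_rec m
    rw [h] at h1
    have h2 := tau_le_one (m + 1)
    have h3 : m + 1 + 1 ≤ 2 ^ Nat.size (m + 1) := Nat.lt_size_self (m + 1)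
    have h4 : ((m + 1 : ℕ) : ℝ) + 1 ≤ 2 ^ Nat.size (m + 1) := by exact_mod_cast h3
    have h5 : (0 : ℝ) < 2 ^ Nat.size (m + 1) := by positivity
    rw [eq_div_iff h5.ne', one_mul] at h1
    have h6 : tau (m + 1) = 1 := by linarith
    refine ⟨?_, h6⟩
    have h7 : ((m + 1 : ℕ) : ℝ) + 1 = 2 ^ Nat.size (m + 1) := by linarith
    exact_mod_cast h7
  rcases (tau_le_one m).lt_or_eq with h | h
  · exact h
  · obtain ⟨h1, h2⟩ := key m h
    obtain ⟨h3, -⟩ := key (m + 1) h2
    exfalso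
    rw [h1, Nat.size_pow, pow_succ] at h3
    have : 1 < 2 ^ Nat.size (m + 1) := by omega
    omega

/-- `2 ^ (ell m) α` is an integer plus `tau m` -/
lemma champ_eq (m : ℕ) : ∃ A : ℤ, (2 : ℝ) ^ ell m * champ = A + tau m := by
  have h0 : champ = (∑ n ∈ range (m + 1), (n : ℝ) / 2 ^ ell n) + tau m / 2 ^ ell m := by
    have hs : Summable fun n : ℕ => (n : ℝ) / 2 ^ ell n := by
      rw [← summable_nat_add_iff 1]
      refine (summable_tt 0).congr fun n => ?_
      unfold tt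
      rw [show 0 + 1 + n = n + 1 by ring]
      simp [ell]
    unfold champ
    rw [← hs.sum_add_tsum_nat_add (m + 1)]
    congr 1
    unfold tau
    rw [← tsum_div_const]
    refine tsum_congr fun n => ?_
    unfold tt
    rw [div_div, ← pow_add]
    have h1 : ell m ≤ ell (m + 1 + n) := ell_mono (by omega)
    rw [Nat.sub_add_cancel h1, show n + (m + 1) = m + 1 + n by ring]
  refine ⟨∑ n ∈ range (m + 1), (n : ℤ) * 2 ^ (ell m - ell n), ?_⟩
  rw [h0, mul_add, mul_div_cancel₀ _ (by positivity : (2 : ℝ) ^ ell m ≠ 0), mul_sum]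
  congr 1
  push_cast
  refine sum_congr rfl fun n hn => ?_
  have h1 : ell n ≤ ell m := ell_mono (by rw [mem_range] at hn; omega)
  have h2 : (2 : ℝ) ^ ell m = 2 ^ (ell m - ell n) * 2 ^ ell n := by
    rw [← pow_add, Nat.sub_add_cancel h1]
  rw [h2]
  field_simp

/-- the sequence `{2 ^ p α}` -/
noncomputable def xs (p : ℕ) : ℝ := Int.fract ((2 : ℝ) ^ p * champ)

lemma xs_eq (m j : ℕ) (hj : j ≤ Nat.size (m + 1)) :
    xs (ell m + j) = (((m + 1) % 2 ^ (Nat.size (m + 1) - j) : ℕ) + tau (m + 1)) /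
      2 ^ (Nat.size (m + 1) - j) := by
  obtain ⟨A, hA⟩ := champ_eq m
  set r := Nat.size (m + 1) - j with hr
  unfold xs
  have h1 : (2 : ℝ) ^ (ell m + j) * champ = ((2 ^ j * A + ((m + 1) / 2 ^ r : ℕ) : ℤ) : ℝ) +
      (((m + 1) % 2 ^ r : ℕ) + tau (m + 1)) / 2 ^ r := by
    rw [pow_add, mul_comm ((2 : ℝ) ^ ell m), mul_assoc, hA, mul_add, tau_rec]
    obtain ⟨q, hq⟩ : ∃ q, q = (m + 1) / 2 ^ r := ⟨_, rfl⟩
    obtain ⟨u, hu⟩ : ∃ u, u = (m + 1) % 2 ^ r := ⟨_, rfl⟩
    have h2 : ((m + 1 : ℕ) : ℝ) = 2 ^ r * (q : ℕ) + (u : ℕ) := by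
      rw [hq, hu]
      exact_mod_cast (Nat.div_add_mod (m + 1) (2 ^ r)).symm
    have h3 : (2 : ℝ) ^ Nat.size (m + 1) = 2 ^ r * 2 ^ j := by
      rw [← pow_add, hr, Nat.sub_add_cancel hj]
    rw [h2, h3, ← hq, ← hu]
    push_cast
    field_simp
    ring
  rw [h1, Int.fract_intCast_add, Int.fract_eq_self]
  have h4 : (m + 1) % 2 ^ r + 1 ≤ 2 ^ r := Nat.mod_lt _ (by positivity)
  have h5 : (((m + 1) % 2 ^ r : ℕ) : ℝ) + 1 ≤ 2 ^ r := by exact_mod_cast h4
  have h6 := tau_nonneg (m + 1)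
  have h7 := tau_lt_one (m + 1)
  constructor
  · positivity
  · rw [div_lt_one (by positivity)]
    linarith

lemma xs_nonneg (p : ℕ) : 0 ≤ xs p := Int.fract_nonneg _

lemma xs_lt_one (p : ℕ) : xs p < 1 := Int.fract_lt_one _

/-- the number formed by the `w` binary digits of `α` behind the place `p` -/
noncomputable def ys (w p : ℕ) : ℕ := ⌊(2 : ℝ) ^ w * xs p⌋₊

lemma ys_lt (w p : ℕ) : ys w p < 2 ^ w := by
  unfold ys
  rw [Nat.floor_lt (mul_nonneg (by positivity) (xs_nonneg p))]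
  push_cast
  have h := xs_lt_one p
  have h2 : (0 : ℝ) < 2 ^ w := by positivity
  nlinarith

/-- the word of length `w` which starts `w - 1 - t` digits before the number `n` with `i` digits -/
def wd (w i t n : ℕ) : ℕ :=
  if t < w then ((n - 1) % 2 ^ (w - 1 - t)) * 2 ^ (t + 1) + n / 2 ^ (i - 1 - t)
  else (n / 2 ^ (i - 1 - t)) % 2 ^ w

lemma floor_aux (u r c : ℕ) (τ : ℝ) (h0 : 0 ≤ τ) (h1 : τ < 1) (w : ℕ) (hr : r = c + w) :
    ⌊(2 : ℝ) ^ w * (((u : ℝ) + τ) / 2 ^ r)⌋₊ = u / 2 ^ c := by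
  have h2 : (2 : ℝ) ^ w * (((u : ℝ) + τ) / 2 ^ r) = ((u : ℝ) + τ) / 2 ^ c := by
    rw [hr, pow_add]
    field_simp
  rw [h2, Nat.floor_eq_iff (by positivity)]
  have h3 : u = 2 ^ c * (u / 2 ^ c) + u % 2 ^ c := (Nat.div_add_mod u (2 ^ c)).symm
  have h4 : u % 2 ^ c + 1 ≤ 2 ^ c := Nat.mod_lt _ (by positivity)
  have h5 : (u : ℝ) = 2 ^ c * ((u / 2 ^ c : ℕ) : ℝ) + ((u % 2 ^ c : ℕ) : ℝ) := by exact_mod_cast h3
  have h6 : ((u % 2 ^ c : ℕ) : ℝ) + 1 ≤ 2 ^ c := by exact_mod_cast h4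
  have h7 : (0 : ℝ) ≤ ((u % 2 ^ c : ℕ) : ℝ) := by positivity
  have h8 : (0 : ℝ) < 2 ^ c := by positivity
  constructor
  · rw [le_div_iff₀ h8]
    nlinarith
  · rw [div_lt_iff₀ h8]
    nlinarith

lemma ys_eq (w n t : ℕ) (hw : 1 ≤ w) (hn : 1 ≤ n) (ht : t < Nat.size n) (hwi : w ≤ Nat.size n)
    (hwi' : w ≤ Nat.size (n - 1) + 1) :
    ys w (ell (n - 1) + t + 1 - w) = wd w (Nat.size n) t n := by
  obtain ⟨m, rfl⟩ := Nat.exists_eq_add_of_le' hn
  rw [Nat.add_sub_cancel] at *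
  set i := Nat.size (m + 1) with hi
  have hlt : m + 1 < 2 ^ i := Nat.lt_size_self (m + 1)
  unfold wd
  by_cases htw : t < w
  · rw [if_pos htw, Nat.add_sub_cancel]
    by_cases ha : w - 1 - t = 0
    · -- the word consists of the first digits of `m + 1`
      have htw' : t + 1 = w := by omega
      have h1 : ell m + t + 1 - w = ell m + 0 := by omega
      rw [h1, ha]
      unfold ys
      rw [xs_eq m 0 (Nat.zero_le _), Nat.sub_zero, ← hi, Nat.mod_eq_of_lt hlt,
        floor_aux _ _ (i - w) _ (tau_nonneg _) (tau_lt_one _) w (by omega)]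
      rw [pow_zero, Nat.mod_one, zero_mul, zero_add]
      congr 2
      omega
    · -- a crossing word
      set a := w - 1 - t with haa
      have ha1 : 1 ≤ a := by omega
      have hsize : a ≤ Nat.size m := by omega
      have hm0 : m ≠ 0 := by
        rintro rfl
        simp at hsize
        omega
      obtain ⟨m', rfl⟩ : ∃ m', m = m' + 1 := ⟨m - 1, by omega⟩
      have h1 : ell (m' + 1) + t + 1 - w = ell m' + (Nat.size (m' + 1) - a) := by
        rw [ell_succ]
        omega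
      have h2 : Nat.size (m' + 1) - (Nat.size (m' + 1) - a) = a := by omega
      rw [h1]
      unfold ys
      rw [xs_eq m' _ (Nat.sub_le _ _), h2]
      have h3 : (2 : ℝ) ^ w * ((((m' + 1) % 2 ^ a : ℕ) + tau (m' + 1)) / 2 ^ a) =
          (((m' + 1) % 2 ^ a * 2 ^ (t + 1) : ℕ) : ℝ) + 2 ^ (t + 1) * tau (m' + 1) := by
        have h4 : (2 : ℝ) ^ w = 2 ^ (t + 1) * 2 ^ a := by
          rw [← pow_add]
          congr 1
          omega
        rw [h4]
        push_cast
        field_simp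
      rw [h3, add_comm, Nat.floor_add_natCast (mul_nonneg (by positivity) (tau_nonneg _)), tau_rec,
        add_comm]
      congr 1
      have hi' : Nat.size (m' + 1 + 1) = i := rfl
      rw [hi', floor_aux (m' + 1 + 1) i (i - 1 - t) _ (tau_nonneg _) (tau_lt_one _) (t + 1) (by omega)]
  · rw [if_neg htw]
    push Not at htw
    have h1 : ell m + t + 1 - w = ell m + (t + 1 - w) := by omega
    rw [h1]
    unfold ys
    rw [xs_eq m (t + 1 - w) (by omega), ← hi]
    have h2 : i - (t + 1 - w) = (i - 1 - t) + w := by omega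
    rw [h2, floor_aux _ _ (i - 1 - t) _ (tau_nonneg _) (tau_lt_one _) w rfl, pow_add, Nat.mod_mul_right_div_self]

end Q257.Champ
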