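import Mathlib
import Pool.Agent.Q257.Champ.Series

/-!
# Collisions of the words of length `w` in the block of the numbers with `i` binary digits
-/

set_option autoImplicit false

open Finset

namespace Q257.Champ

lemma card_mod_le (A B M r : ℕ) (hM : 0 < M) :
    (((Ico A B).filter (fun n => n % M = r)).card : ℝ) ≤ ((B - A : ℕ) : ℝ) / M + 1 := by
  by_cases hr : r < M
  · have h1 : (Ico A B).filter (fun n => n % M = r) = (Ico A B).filter (fun n => n ≡ r [MOD M]) := by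
      ext n
      simp only [mem_filter, Nat.ModEq, Nat.mod_eq_of_lt hr]
    rcases le_total A B with hAB | hAB
    · have h2 := Nat.Ico_filter_modEq_card A B hM r
      rw [h1]
      have h3 : ((((Ico A B).filter (fun n => n ≡ r [MOD M])).card : ℤ) : ℚ) ≤
          ((B : ℚ) - A) / M + 1 := by
        rw [h2]
        push_cast
        apply max_le
        · have h4 := Int.ceil_lt_add_one (((B : ℚ) - r) / M)
          have h5 := Int.le_ceil (((A : ℚ) - r) / M)
          have h6 : ((B : ℚ) - r) / M - ((A : ℚ) - r) / M = ((B : ℚ) - A) / M := by ring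
          linarith
        · have h7 : (A : ℚ) ≤ B := by exact_mod_cast hAB
          have h8 : (0 : ℚ) ≤ ((B : ℚ) - A) / M := by
            apply div_nonneg <;> [linarith; positivity]
          linarith
      rw [Nat.cast_sub hAB]
      have h9 : ((((((Ico A B).filter (fun n => n ≡ r [MOD M])).card : ℤ) : ℚ)) : ℝ) ≤
          ((((B : ℚ) - A) / M + 1 : ℚ) : ℝ) := by exact_mod_cast h3
      push_cast at h9
      exact h9
    · rw [Ico_eq_empty_of_le hAB, filter_empty, card_empty, Nat.cast_zero]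
      positivity
  · have h1 : (Ico A B).filter (fun n => n % M = r) = ∅ := by
      apply filter_false_of_mem
      intro n _ h
      exact hr (h ▸ Nat.mod_lt _ hM)
    rw [h1, card_empty, Nat.cast_zero]
    positivity

lemma card_pred_mod_le (A B M r : ℕ) (hM : 0 < M) (hA : 1 ≤ A) :
    (((Ico A B).filter (fun n => (n - 1) % M = r)).card : ℝ) ≤ ((B - A : ℕ) : ℝ) / M + 1 := by
  have h1 : ((Ico A B).filter (fun n => (n - 1) % M = r)).card ≤
      ((Ico (A - 1) (B - 1)).filter (fun n => n % M = r)).card := by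
    apply card_le_card_of_injOn (fun n => n - 1)
    · intro n hn
      simp only [coe_filter, mem_Ico, Set.mem_ofPred_eq] at hn ⊢
      refine ⟨⟨?_, ?_⟩, hn.2⟩ <;> omega
    · intro n hn n' hn' h
      simp only [coe_filter, mem_Ico, Set.mem_ofPred_eq] at hn hn' h
      omega
  have h2 := card_mod_le (A - 1) (B - 1) M r hM
  have h3 : B - 1 - (A - 1) = B - A := by omega
  rw [h3] at h2
  have h4 : (((Ico A B).filter (fun n => (n - 1) % M = r)).card : ℝ) ≤
      (((Ico (A - 1) (B - 1)).filter (fun n => n % M = r)).card : ℝ) := by exact_mod_cast h1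
  linarith

lemma card_digits_le (A B c w v : ℕ) :
    (((Ico A B).filter (fun n => (n / 2 ^ c) % 2 ^ w = v)).card : ℝ) ≤
      ((B - A : ℕ) : ℝ) / 2 ^ w + 2 ^ c := by
  have h1 : (Ico A B).filter (fun n => (n / 2 ^ c) % 2 ^ w = v) ⊆
      (range (2 ^ c)).biUnion (fun ρ => (Ico A B).filter (fun n => n % (2 ^ c * 2 ^ w) = ρ + 2 ^ c * v)) := by
    intro n hn
    simp only [mem_filter, mem_biUnion, mem_range] at hn ⊢
    refine ⟨n % 2 ^ c, Nat.mod_lt _ (by positivity), hn.1, ?_⟩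
    rw [Nat.mod_mul, hn.2]
  have h2 : (((Ico A B).filter (fun n => (n / 2 ^ c) % 2 ^ w = v)).card : ℝ) ≤
      ∑ ρ ∈ range (2 ^ c), (((Ico A B).filter (fun n => n % (2 ^ c * 2 ^ w) = ρ + 2 ^ c * v)).card : ℝ) := by
    exact_mod_cast (card_le_card h1).trans card_biUnion_le
  refine h2.trans ((sum_le_sum fun ρ _ => card_mod_le A B (2 ^ c * 2 ^ w) (ρ + 2 ^ c * v) (by positivity)).trans ?_)
  rw [sum_const, card_range, nsmul_eq_mul]
  push_cast
  have h3 : (0 : ℝ) < 2 ^ c := by positivity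
  have h4 : (0 : ℝ) < 2 ^ w := by positivity
  apply le_of_eq
  field_simp

lemma filter_div_eq (A B e U : ℕ) :
    (Ico A B).filter (fun n => n / 2 ^ e = U) = Ico (max A (U * 2 ^ e)) (min B ((U + 1) * 2 ^ e)) := by
  ext n
  have h0 : 0 < 2 ^ e := by positivity
  simp only [mem_filter, mem_Ico, max_le_iff, lt_min_iff]
  rw [Nat.div_eq_iff h0, add_mul, one_mul]
  constructor
  · rintro ⟨⟨h1, h2⟩, h3, h4⟩
    refine ⟨⟨h1, h3⟩, h2, ?_⟩
    omega
  · rintro ⟨⟨h1, h3⟩, h2, h4⟩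
    refine ⟨⟨h1, h2⟩, h3, ?_⟩
    omega

/-- the number of the collisions of the words at the offsets `t` and `t'` -/
def coll (w i : ℕ) (I : Finset ℕ) (t t' : ℕ) : ℕ :=
  ∑ n ∈ I, (I.filter (fun n' => wd w i t' n' = wd w i t n)).card

lemma coll_symm (w i : ℕ) (I : Finset ℕ) (t t' : ℕ) : coll w i I t t' = coll w i I t' t := by
  unfold coll
  simp only [card_filter]
  rw [sum_comm]
  refine sum_congr rfl fun n _ => sum_congr rfl fun n' _ => ?_
  simp only [eq_comm]

section block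

variable {w i X t t' : ℕ}

lemma coll_big (ht : w ≤ t') :
    (coll w i (Ico (2 ^ (i - 1)) X) t t' : ℝ) ≤ ((X - 2 ^ (i - 1) : ℕ) : ℝ) ^ 2 / 2 ^ w +
      ((X - 2 ^ (i - 1) : ℕ) : ℝ) * 2 ^ (i - 1 - t') := by
  unfold coll
  push_cast
  have h1 : ∀ n ∈ Ico (2 ^ (i - 1)) X,
      (((Ico (2 ^ (i - 1)) X).filter (fun n' => wd w i t' n' = wd w i t n)).card : ℝ) ≤
      ((X - 2 ^ (i - 1) : ℕ) : ℝ) / 2 ^ w + 2 ^ (i - 1 - t') := by
    intro n _
    have h2 : ∀ n', wd w i t' n' = (n' / 2 ^ (i - 1 - t')) % 2 ^ w := by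
      intro n'
      unfold wd
      rw [if_neg (by omega)]
    simp only [h2]
    exact card_digits_le _ _ _ _ _
  refine (sum_le_sum h1).trans ?_
  rw [sum_const, Nat.card_Ico, nsmul_eq_mul]
  apply le_of_eq
  ring

lemma wd_div (ht : t < w) {n : ℕ} (hn : n < 2 ^ i) (hti : t < i) :
    wd w i t n / 2 ^ (t + 1) = (n - 1) % 2 ^ (w - 1 - t) := by
  unfold wd
  rw [if_pos ht]
  have h1 : n / 2 ^ (i - 1 - t) < 2 ^ (t + 1) := by
    rw [Nat.div_lt_iff_lt_mul (by positivity), ← pow_add]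
    refine lt_of_lt_of_le hn (Nat.pow_le_pow_right (by norm_num) (by omega))
  rw [mul_comm, Nat.mul_add_div (by positivity), Nat.div_eq_of_lt h1, add_zero]

lemma wd_mod (ht : t < w) {n : ℕ} (hn : n < 2 ^ i) (hti : t < i) :
    wd w i t n % 2 ^ (t + 1) = n / 2 ^ (i - 1 - t) := by
  unfold wd
  rw [if_pos ht]
  have h1 : n / 2 ^ (i - 1 - t) < 2 ^ (t + 1) := by
    rw [Nat.div_lt_iff_lt_mul (by positivity), ← pow_add]
    refine lt_of_lt_of_le hn (Nat.pow_le_pow_right (by norm_num) (by omega))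
  rw [mul_comm, Nat.mul_add_mod, Nat.mod_eq_of_lt h1]

lemma coll_same (hw : w ≤ i) (hX : X ≤ 2 ^ i) (ht : t < w) :
    (coll w i (Ico (2 ^ (i - 1)) X) t t : ℝ) ≤
      ((X - 2 ^ (i - 1) : ℕ) : ℝ) * (2 ^ (i - w) + 1) := by
  unfold coll
  push_cast
  have h1 : ∀ n ∈ Ico (2 ^ (i - 1)) X,
      (((Ico (2 ^ (i - 1)) X).filter (fun n' => wd w i t n' = wd w i t n)).card : ℝ) ≤
      2 ^ (i - w) + 1 := by
    intro n _
    set W := wd w i t n with hW
    set e := i - 1 - t with he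
    set U := W % 2 ^ (t + 1) with hU
    set A := max (2 ^ (i - 1)) (U * 2 ^ e) with hA
    set B := min X ((U + 1) * 2 ^ e) with hB
    have h2 : ((Ico (2 ^ (i - 1)) X).filter (fun n' => wd w i t n' = W)).card ≤
        ((Ico A B).filter (fun n' => (n' - 1) % 2 ^ (w - 1 - t) = W / 2 ^ (t + 1))).card := by
      apply card_le_card
      rw [hA, hB, ← filter_div_eq, filter_filter]
      intro n' hn'
      simp only [mem_filter, mem_Ico] at hn' ⊢
      have hn2 : n' < 2 ^ i := by omega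
      refine ⟨hn'.1, ?_, ?_⟩
      · rw [hU, ← hn'.2, wd_mod ht hn2 (by omega)]
      · rw [← hn'.2, wd_div ht hn2 (by omega)]
    have h3 : (((Ico A B).filter (fun n' => (n' - 1) % 2 ^ (w - 1 - t) = W / 2 ^ (t + 1))).card : ℝ) ≤
        ((B - A : ℕ) : ℝ) / ((2 ^ (w - 1 - t) : ℕ) : ℝ) + 1 :=
      card_pred_mod_le _ _ _ _ (by positivity) ((Nat.one_le_two_pow).trans (le_max_left _ _))
    have h4 : B - A ≤ 2 ^ e := by
      have h5 : U * 2 ^ e ≤ A := le_max_right _ _
      have h6 : B ≤ (U + 1) * 2 ^ e := min_le_right _ _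
      rw [tsub_le_iff_left]
      calc B ≤ (U + 1) * 2 ^ e := h6
        _ = U * 2 ^ e + 2 ^ e := by ring
        _ ≤ A + 2 ^ e := by gcongr
    have h7 : ((B - A : ℕ) : ℝ) / ((2 ^ (w - 1 - t) : ℕ) : ℝ) ≤ 2 ^ (i - w) := by
      rw [div_le_iff₀ (by positivity)]
      push_cast
      rw [← pow_add]
      have h8 : i - w + (w - 1 - t) = e := by omega
      rw [h8]
      exact_mod_cast h4
    have h9 : (((Ico (2 ^ (i - 1)) X).filter (fun n' => wd w i t n' = W)).card : ℝ) ≤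
        (((Ico A B).filter (fun n' => (n' - 1) % 2 ^ (w - 1 - t) = W / 2 ^ (t + 1))).card : ℝ) := by
      exact_mod_cast h2
    linarith
  refine (sum_le_sum h1).trans ?_
  rw [sum_const, Nat.card_Ico, nsmul_eq_mul]

lemma coll_lt (hw : w ≤ i) (hX : X ≤ 2 ^ i) (ht : t < w) (htt : t' < t) :
    (coll w i (Ico (2 ^ (i - 1)) X) t t' : ℝ) ≤ ((X - 2 ^ (i - 1) : ℕ) : ℝ) ^ 2 / 2 ^ w +
      ((X - 2 ^ (i - 1) : ℕ) : ℝ) * (2 ^ (i - w) * (1 / 2) ^ (t - t') + 1) := by
  set I := Ico (2 ^ (i - 1)) X with hI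
  set Y : ℝ := ((X - 2 ^ (i - 1) : ℕ) : ℝ) with hY
  have hcard : (I.card : ℝ) = Y := by rw [hI, Nat.card_Ico]
  set e' := i - 1 - t' with he'
  set e := i - 1 - t with he
  -- the inner count
  have h1 : ∀ n ∈ I, ((I.filter (fun n' => wd w i t' n' = wd w i t n)).card : ℝ) ≤
      ((I.filter (fun n' => n' / 2 ^ e' = (n / 2 ^ e) % 2 ^ (t' + 1))).card : ℝ) / 2 ^ (w - 1 - t') + 1 := by
    intro n hn
    have hn2 : n < 2 ^ i := by rw [hI, mem_Ico] at hn; omega
    set W := wd w i t n with hW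
    set U := (n / 2 ^ e) % 2 ^ (t' + 1) with hU
    have hWU : W % 2 ^ (t' + 1) = U := by
      have h2 : 2 ^ (t' + 1) ∣ 2 ^ (t + 1) := pow_dvd_pow 2 (by omega)
      rw [hU, ← Nat.mod_mod_of_dvd W h2, hW, wd_mod ht hn2 (by omega)]
    set A := max (2 ^ (i - 1)) (U * 2 ^ e') with hA
    set B := min X ((U + 1) * 2 ^ e') with hB
    have h0 : I.filter (fun n' => n' / 2 ^ e' = U) = Ico A B := filter_div_eq _ _ _ _
    have h2 : (I.filter (fun n' => wd w i t' n' = W)).card ≤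
        ((Ico A B).filter (fun n' => (n' - 1) % 2 ^ (w - 1 - t') = W / 2 ^ (t' + 1))).card := by
      apply card_le_card
      rw [← h0, filter_filter]
      intro n' hn'
      simp only [mem_filter, hI, mem_Ico] at hn' ⊢
      have hn2 : n' < 2 ^ i := by omega
      refine ⟨hn'.1, ?_, ?_⟩
      · rw [← hWU, ← hn'.2, wd_mod (by omega) hn2 (by omega)]
      · rw [← hn'.2, wd_div (by omega) hn2 (by omega)]
    have h3 : (((Ico A B).filter (fun n' => (n' - 1) % 2 ^ (w - 1 - t') = W / 2 ^ (t' + 1))).card : ℝ) ≤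
        ((B - A : ℕ) : ℝ) / ((2 ^ (w - 1 - t') : ℕ) : ℝ) + 1 :=
      card_pred_mod_le _ _ _ _ (by positivity) ((Nat.one_le_two_pow).trans (le_max_left _ _))
    rw [h0, Nat.card_Ico]
    have h9 : ((I.filter (fun n' => wd w i t' n' = W)).card : ℝ) ≤
        (((Ico A B).filter (fun n' => (n' - 1) % 2 ^ (w - 1 - t') = W / 2 ^ (t' + 1))).card : ℝ) := by
      exact_mod_cast h2
    push_cast at h3
    linarith
  -- the sum of the inner counts
  have h2 : (∑ n ∈ I, ((I.filter (fun n' => n' / 2 ^ e' = (n / 2 ^ e) % 2 ^ (t' + 1))).card : ℝ)) ≤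
      Y * (Y / 2 ^ (t' + 1) + 2 ^ e) := by
    have h3 : (∑ n ∈ I, ((I.filter (fun n' => n' / 2 ^ e' = (n / 2 ^ e) % 2 ^ (t' + 1))).card : ℝ)) =
        ∑ n' ∈ I, ((I.filter (fun n => (n / 2 ^ e) % 2 ^ (t' + 1) = n' / 2 ^ e')).card : ℝ) := by
      have h4 : (∑ n ∈ I, ((I.filter (fun n' => n' / 2 ^ e' = (n / 2 ^ e) % 2 ^ (t' + 1))).card)) =
        ∑ n' ∈ I, ((I.filter (fun n => (n / 2 ^ e) % 2 ^ (t' + 1) = n' / 2 ^ e')).card) := by
        simp only [card_filter]
        rw [sum_comm]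
        refine sum_congr rfl fun n _ => sum_congr rfl fun n' _ => ?_
        simp only [eq_comm]
      exact_mod_cast h4
    rw [h3]
    refine (sum_le_sum fun n' _ => card_digits_le _ _ _ _ _).trans ?_
    rw [sum_const, nsmul_eq_mul, hcard]
  unfold coll
  push_cast
  refine (sum_le_sum h1).trans ?_
  rw [sum_add_distrib, ← sum_div, sum_const, nsmul_eq_mul, hcard, mul_one]
  have h5 : (∑ n ∈ I, ((I.filter (fun n' => n' / 2 ^ e' = (n / 2 ^ e) % 2 ^ (t' + 1))).card : ℝ)) /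
      2 ^ (w - 1 - t') ≤ Y * (Y / 2 ^ (t' + 1) + 2 ^ e) / 2 ^ (w - 1 - t') := by gcongr
  have h6 : Y * (Y / 2 ^ (t' + 1) + 2 ^ e) / 2 ^ (w - 1 - t') =
      Y ^ 2 / 2 ^ w + Y * (2 ^ (i - w) * (1 / 2) ^ (t - t')) := by
    have h7 : (2 : ℝ) ^ w = 2 ^ (t' + 1) * 2 ^ (w - 1 - t') := by
      rw [← pow_add]; congr 1; omega
    have h8 : (2 : ℝ) ^ e * 2 ^ (t - t') = 2 ^ (i - w) * 2 ^ (w - 1 - t') := by
      rw [← pow_add, ← pow_add]; congr 1; omega
    rw [h7, one_div, inv_pow]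
    field_simp
    linear_combination (Y * (2 : ℝ) ^ (t' + 1)) * h8
  rw [h6] at h5
  linarith

end block

end Q257.Champ
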