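import Mathlib
import Pool.Agent.Q257.Champ.Comb

/-!
# The number of the collisions in a block
-/

set_option autoImplicit false

open Finset

namespace Q257.Champ

lemma geom_half (n : ℕ) : ∑ j ∈ range n, (1 / 2 : ℝ) ^ j ≤ 2 := sum_geometric_two_le n

lemma sum_f (w i : ℕ) : ∑ t ∈ range i, (if w ≤ t then (2 : ℝ) ^ (i - 1 - t) else 0) ≤ 2 ^ (i - w) := by
  have h1 : ∑ t ∈ range i, (if w ≤ t then (2 : ℝ) ^ (i - 1 - t) else 0) =
      ∑ j ∈ range i, (if j < i - w then (2 : ℝ) ^ j else 0) := by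
    rw [← sum_range_reflect]
    refine sum_congr rfl fun t ht => ?_
    rw [mem_range] at ht
    have h2 : (w ≤ i - 1 - t) ↔ t < i - w := by omega
    have h3 : i - 1 - (i - 1 - t) = t := by omega
    simp only [h2, h3]
  rw [h1, ← sum_filter]
  have h4 : (range i).filter (fun j => j < i - w) = range (i - w) := by
    ext j
    simp only [mem_filter, mem_range]
    omega
  rw [h4, geom_sum_eq (by norm_num)]
  norm_num

lemma sum_g (t i : ℕ) : ∑ t' ∈ range i, ((1 / 2 : ℝ) ^ (t - t') * (1 / 2) ^ (t' - t)) ≤ 4 := by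
  have h1 : ∑ t' ∈ range i, ((1 / 2 : ℝ) ^ (t - t') * (1 / 2) ^ (t' - t)) ≤
      ∑ t' ∈ range i, ((if t' ≤ t then (1 / 2 : ℝ) ^ (t - t') else 0) +
        (if t ≤ t' then (1 / 2 : ℝ) ^ (t' - t) else 0)) := by
    refine sum_le_sum fun t' _ => ?_
    rcases le_total t' t with h | h
    · rw [if_pos h, Nat.sub_eq_zero_of_le h, pow_zero, mul_one]
      refine le_add_of_nonneg_right ?_
      split_ifs <;> norm_num
    · rw [if_pos h, Nat.sub_eq_zero_of_le h, pow_zero, one_mul]
      refine le_add_of_nonneg_left ?_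
      split_ifs <;> norm_num
  refine h1.trans ?_
  rw [sum_add_distrib, ← sum_filter, ← sum_filter]
  have h2 : ∑ t' ∈ (range i).filter (fun t' => t' ≤ t), (1 / 2 : ℝ) ^ (t - t') ≤ 2 := by
    have h3 : ∑ t' ∈ (range i).filter (fun t' => t' ≤ t), (1 / 2 : ℝ) ^ (t - t') ≤
        ∑ t' ∈ range (t + 1), (1 / 2 : ℝ) ^ (t + 1 - 1 - t') := by
      rw [Nat.add_sub_cancel]
      apply sum_le_sum_of_subset_of_nonneg
      · intro t' ht'
        simp only [mem_filter, mem_range] at ht' ⊢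
        omega
      · intros; positivity
    rw [sum_range_reflect (fun j => (1 / 2 : ℝ) ^ j)] at h3
    exact h3.trans (geom_half _)
  have h4 : ∑ t' ∈ (range i).filter (fun t' => t ≤ t'), (1 / 2 : ℝ) ^ (t' - t) ≤ 2 := by
    have h5 : ∑ t' ∈ (range i).filter (fun t' => t ≤ t'), (1 / 2 : ℝ) ^ (t' - t) ≤
        ∑ t' ∈ Ico t i, (1 / 2 : ℝ) ^ (t' - t) := by
      apply sum_le_sum_of_subset_of_nonneg
      · intro t' ht'
        simp only [mem_filter, mem_range, mem_Ico] at ht' ⊢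
        omega
      · intros; positivity
    refine h5.trans ?_
    rw [sum_Ico_eq_sum_range]
    simp only [Nat.add_sub_cancel_left]
    exact geom_half _
  linarith

lemma sum_coll {w i X : ℕ} (hw : w ≤ i) (hX : X ≤ 2 ^ i) (hiw : i ≤ 2 * 2 ^ (i - w)) :
    (∑ t ∈ range i, ∑ t' ∈ range i, (coll w i (Ico (2 ^ (i - 1)) X) t t' : ℝ)) ≤
      ((i : ℝ) * ((X - 2 ^ (i - 1) : ℕ) : ℝ)) ^ 2 / 2 ^ w + 4 * i * 2 ^ (2 * i - w) := by
  set Y : ℝ := ((X - 2 ^ (i - 1) : ℕ) : ℝ) with hY
  have hY0 : 0 ≤ Y := by rw [hY]; positivity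
  set f : ℕ → ℝ := fun t => if w ≤ t then (2 : ℝ) ^ (i - 1 - t) else 0 with hf
  have hf0 : ∀ t, 0 ≤ f t := by intro t; simp only [hf]; split_ifs <;> positivity
  have key : ∀ t ∈ range i, ∀ t' ∈ range i, (coll w i (Ico (2 ^ (i - 1)) X) t t' : ℝ) ≤
      Y ^ 2 / 2 ^ w + Y * (f t + f t' + 2 ^ (i - w) * ((1 / 2 : ℝ) ^ (t - t') * (1 / 2) ^ (t' - t)) + 1) := by
    intro t ht t' ht'
    have hpos : (0 : ℝ) ≤ 2 ^ (i - w) * ((1 / 2 : ℝ) ^ (t - t') * (1 / 2) ^ (t' - t)) := by positivity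
    by_cases h1 : w ≤ t'
    · have h2 := coll_big (i := i) (X := X) (t := t) h1
      rw [← hY] at h2
      have h3 : f t' = 2 ^ (i - 1 - t') := by simp only [hf]; rw [if_pos h1]
      rw [← h3] at h2
      have h4 : Y * f t' ≤ Y * (f t + f t' + 2 ^ (i - w) * ((1 / 2 : ℝ) ^ (t - t') * (1 / 2) ^ (t' - t)) + 1) := by
        apply mul_le_mul_of_nonneg_left _ hY0
        have := hf0 t
        linarith
      linarith
    · by_cases h2 : w ≤ t
      · have h3 := coll_big (i := i) (X := X) (t := t') h2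
        rw [← hY, coll_symm] at h3
        have h4 : f t = 2 ^ (i - 1 - t) := by simp only [hf]; rw [if_pos h2]
        rw [← h4] at h3
        have h5 : Y * f t ≤ Y * (f t + f t' + 2 ^ (i - w) * ((1 / 2 : ℝ) ^ (t - t') * (1 / 2) ^ (t' - t)) + 1) := by
          apply mul_le_mul_of_nonneg_left _ hY0
          have := hf0 t'
          linarith
        linarith
      · push Not at h1 h2
        have hf1 := hf0 t
        have hf2 := hf0 t'
        have hY2 : 0 ≤ Y ^ 2 / 2 ^ w := by positivity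
        rcases lt_trichotomy t' t with h3 | h3 | h3
        · have h4 := coll_lt hw hX h2 h3
          rw [← hY] at h4
          refine h4.trans ?_
          have h5 : t' - t = 0 := by omega
          rw [h5, pow_zero, mul_one]
          have h6 : Y * (2 ^ (i - w) * (1 / 2) ^ (t - t') + 1) ≤
              Y * (f t + f t' + 2 ^ (i - w) * ((1 / 2 : ℝ) ^ (t - t')) + 1) := by
            apply mul_le_mul_of_nonneg_left _ hY0
            linarith
          linarith
        · subst h3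
          have h4 := coll_same hw hX h2
          rw [← hY] at h4
          refine h4.trans ?_
          rw [Nat.sub_self, pow_zero, mul_one, mul_one]
          have h6 : Y * (2 ^ (i - w) + 1) ≤ Y * (f t' + f t' + 2 ^ (i - w) + 1) := by
            apply mul_le_mul_of_nonneg_left _ hY0
            linarith
          linarith
        · rw [coll_symm]
          have h4 := coll_lt hw hX h1 h3
          rw [← hY] at h4
          refine h4.trans ?_
          have h5 : t - t' = 0 := by omega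
          rw [h5, pow_zero, one_mul]
          have h6 : Y * (2 ^ (i - w) * (1 / 2) ^ (t' - t) + 1) ≤
              Y * (f t + f t' + 2 ^ (i - w) * ((1 / 2 : ℝ) ^ (t' - t)) + 1) := by
            apply mul_le_mul_of_nonneg_left _ hY0
            linarith
          linarith
  refine (sum_le_sum fun t ht => sum_le_sum fun t' ht' => key t ht t' ht').trans ?_
  have hF : ∑ t ∈ range i, f t ≤ 2 ^ (i - w) := sum_f w i
  have hrow : ∀ t ∈ range i, ∑ t' ∈ range i, (Y ^ 2 / 2 ^ w +
      Y * (f t + f t' + 2 ^ (i - w) * ((1 / 2 : ℝ) ^ (t - t') * (1 / 2) ^ (t' - t)) + 1)) ≤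
      i * (Y ^ 2 / 2 ^ w) + Y * (i * f t + 2 ^ (i - w) + 2 ^ (i - w) * 4 + i) := by
    intro t _
    rw [sum_add_distrib, ← mul_sum, sum_add_distrib, sum_add_distrib, sum_add_distrib, ← mul_sum,
      sum_const, sum_const, sum_const, card_range, nsmul_eq_mul, nsmul_eq_mul, nsmul_eq_mul, mul_one]
    have h1 := sum_g t i
    have h2 : (0 : ℝ) ≤ 2 ^ (i - w) := by positivity
    gcongr
  refine (sum_le_sum hrow).trans ?_
  simp only [sum_add_distrib, ← mul_sum, sum_const, card_range, nsmul_eq_mul]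
  rcases Nat.eq_zero_or_pos i with h0 | h0
  · subst h0
    simp only [Nat.cast_zero, zero_mul, add_zero, mul_zero]
    positivity
  have hY1 : Y ≤ 2 ^ (i - 1) := by
    have h1 : X - 2 ^ (i - 1) ≤ 2 ^ (i - 1) := by
      have h2 : 2 ^ i = 2 * 2 ^ (i - 1) := by
        rw [← pow_succ']
        congr 1
        omega
      omega
    rw [hY]
    exact_mod_cast h1
  have hi0 : (0 : ℝ) ≤ i := by positivity
  have hP : (i : ℝ) ≤ 2 * 2 ^ (i - w) := by exact_mod_cast hiw
  have hE : i * ∑ t ∈ range i, f t + i * 2 ^ (i - w) + i * (2 ^ (i - w) * 4) + i * (i : ℝ) ≤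
      8 * i * 2 ^ (i - w) := by nlinarith
  have hE0 : (0 : ℝ) ≤ 8 * i * 2 ^ (i - w) := by positivity
  have h5 : Y * (i * ∑ t ∈ range i, f t + i * 2 ^ (i - w) + i * (2 ^ (i - w) * 4) + i * (i : ℝ)) ≤
      2 ^ (i - 1) * (8 * i * 2 ^ (i - w)) :=
    (mul_le_mul_of_nonneg_left hE hY0).trans (mul_le_mul_of_nonneg_right hY1 hE0)
  have h6 : (2 : ℝ) ^ (2 * i - w) = 2 * (2 ^ (i - 1) * 2 ^ (i - w)) := by
    rw [← pow_add, ← pow_succ']
    congr 1
    omega
  rw [h6]
  have h7 : (i : ℝ) * (i * (Y ^ 2 / 2 ^ w)) = (i * Y) ^ 2 / 2 ^ w := by ring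
  rw [h7]
  nlinarith
end Q257.Champ
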