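import Mathlib
import Pool.Agent.Q257.Champ.Sum
import Pool.Agent.Q257.Champ.Dev

/-!
# The deviation of the words of length `w` of the Champernowne number
-/

set_option autoImplicit false

open Finset

namespace Q257.Champ

/-- the first position of a word of length `w` which ends in the number `n` -/
def st (w n : ℕ) : ℕ := ell (n - 1) + 1 - w

/-- the words as residues -/
noncomputable def yz (w : ℕ) (p : ℕ) : ZMod (2 ^ w) := (ys w p : ZMod (2 ^ w))

lemma yz_inj {w a b : ℕ} (ha : a < 2 ^ w) (hb : b < 2 ^ w) :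
    ((a : ZMod (2 ^ w)) = (b : ZMod (2 ^ w))) ↔ a = b := by
  rw [ZMod.natCast_eq_natCast_iff']
  rw [Nat.mod_eq_of_lt ha, Nat.mod_eq_of_lt hb]

lemma size_of_mem {i n : ℕ} (hi : 1 ≤ i) (h1 : 2 ^ (i - 1) ≤ n) (h2 : n < 2 ^ i) : Nat.size n = i := by
  apply le_antisymm
  · exact Nat.size_le.2 h2
  · have := Nat.lt_size.2 h1
    omega

lemma st_succ {w i n : ℕ} (hw : w ≤ i) (hi : 1 ≤ i) (h1 : 2 ^ (i - 1) ≤ n) (h2 : n < 2 ^ i) :
    st w (n + 1) = st w n + i ∧ w ≤ ell (n - 1) + 1 := by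
  have h3 := size_of_mem hi h1 h2
  have h4 : i - 1 < 2 ^ (i - 1) := Nat.lt_two_pow_self
  have h5 : n - 1 ≤ ell (n - 1) := le_ell _
  have h6 : ell n = ell (n - 1) + i := by
    obtain ⟨m, rfl⟩ : ∃ m, n = m + 1 := ⟨n - 1, by omega⟩
    rw [ell_succ, h3, Nat.add_sub_cancel]
  unfold st
  rw [Nat.add_sub_cancel]
  constructor <;> omega

lemma sum_tile {α : Type*} [AddCommMonoid α] (F : ℕ → α) {w i X : ℕ} (hw0 : 1 ≤ w) (hw : w ≤ i)
    (hX1 : 2 ^ (i - 1) ≤ X) (hX2 : X ≤ 2 ^ i) :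
    ∑ p ∈ Ico (st w (2 ^ (i - 1))) (st w X), F (ys w p) =
      ∑ n ∈ Ico (2 ^ (i - 1)) X, ∑ t ∈ range i, F (wd w i t n) := by
  induction X, hX1 using Nat.le_induction with
  | base => simp
  | succ X hX ih =>
    have h1 := st_succ hw (by omega) hX (by omega)
    have h2 : st w (2 ^ (i - 1)) ≤ st w X := by
      unfold st
      have : ell (2 ^ (i - 1) - 1) ≤ ell (X - 1) := ell_mono (by omega)
      omega
    rw [sum_Ico_succ_top hX, ← ih (by omega), ← sum_Ico_consecutive _ h2 (by omega : st w X ≤ st w (X + 1))]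
    congr 1
    rw [sum_Ico_eq_sum_range, h1.1, Nat.add_sub_cancel_left]
    refine sum_congr rfl fun t ht => ?_
    rw [mem_range] at ht
    congr 1
    have hs := size_of_mem (by omega) hX (by omega : X < 2 ^ i)
    have hX1 : 1 ≤ X := Nat.one_le_two_pow.trans hX
    have hs' : i ≤ Nat.size (X - 1) + 1 := by
      by_cases hi2 : i ≤ 1
      · omega
      have h3 : 2 ^ (i - 1) = 2 * 2 ^ (i - 2) := by
        rw [← pow_succ']
        congr 1
        omega
      have h4 : 1 ≤ 2 ^ (i - 2) := Nat.one_le_two_pow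
      have h5 : 2 ^ (i - 2) ≤ X - 1 := by omega
      have := Nat.lt_size.2 h5
      omega
    have h6 := ys_eq w X t hw0 hX1 (by omega) (by omega) (by omega)
    rw [hs] at h6
    rw [← h6]
    congr 1
    unfold st
    have := h1.2
    omega

lemma block_card {w i X : ℕ} (hw0 : 1 ≤ w) (hw : w ≤ i)
    (hX1 : 2 ^ (i - 1) ≤ X) (hX2 : X ≤ 2 ^ i) :
    (Ico (st w (2 ^ (i - 1))) (st w X)).card = i * (X - 2 ^ (i - 1)) := by
  have h := sum_tile (fun _ => 1) hw0 hw hX1 hX2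
  simp only [sum_const, smul_eq_mul, mul_one, card_range, Nat.card_Ico] at h
  rw [Nat.card_Ico, h, mul_comm]

lemma wd_lt {w i t n : ℕ} (hn : n < 2 ^ i) (ht : t < i) : wd w i t n < 2 ^ w := by
  unfold wd
  split_ifs with h
  · have h1 : n / 2 ^ (i - 1 - t) < 2 ^ (t + 1) := by
      rw [Nat.div_lt_iff_lt_mul (by positivity), ← pow_add]
      refine lt_of_lt_of_le hn (Nat.pow_le_pow_right (by norm_num) (by omega))
    have h2 : (n - 1) % 2 ^ (w - 1 - t) + 1 ≤ 2 ^ (w - 1 - t) := Nat.mod_lt _ (by positivity)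
    have h3 : 2 ^ w = 2 ^ (w - 1 - t) * 2 ^ (t + 1) := by
      rw [← pow_add]; congr 1; omega
    rw [h3]
    calc (n - 1) % 2 ^ (w - 1 - t) * 2 ^ (t + 1) + n / 2 ^ (i - 1 - t)
        < (n - 1) % 2 ^ (w - 1 - t) * 2 ^ (t + 1) + 2 ^ (t + 1) := by omega
      _ = ((n - 1) % 2 ^ (w - 1 - t) + 1) * 2 ^ (t + 1) := by ring
      _ ≤ _ := Nat.mul_le_mul_right _ h2
  · exact Nat.mod_lt _ (by positivity)

lemma block_coll {w i X : ℕ} (hw0 : 1 ≤ w) (hw : w ≤ i)
    (hX1 : 2 ^ (i - 1) ≤ X) (hX2 : X ≤ 2 ^ i) :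
    ∑ v, cnt (yz w) (Ico (st w (2 ^ (i - 1))) (st w X)) v ^ 2 =
      ∑ t ∈ range i, ∑ t' ∈ range i, (coll w i (Ico (2 ^ (i - 1)) X) t t' : ℝ) := by
  rw [sum_cnt_sq]
  have h1 : ∀ p, (((Ico (st w (2 ^ (i - 1))) (st w X)).filter (fun q => yz w q = yz w p)).card) =
      ∑ n' ∈ Ico (2 ^ (i - 1)) X, ∑ t' ∈ range i, if wd w i t' n' = ys w p then 1 else 0 := by
    intro p
    rw [card_filter]
    have h2 := sum_tile (fun y => if y = ys w p then 1 else 0) hw0 hw hX1 hX2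
    rw [← h2]
    refine sum_congr rfl fun q _ => ?_
    have h3 : (yz w q = yz w p) ↔ ys w q = ys w p := yz_inj (ys_lt _ _) (ys_lt _ _)
    simp only [h3]
  have h4 : ∑ p ∈ Ico (st w (2 ^ (i - 1))) (st w X),
      (((Ico (st w (2 ^ (i - 1))) (st w X)).filter (fun q => yz w q = yz w p)).card) =
      ∑ t ∈ range i, ∑ t' ∈ range i, coll w i (Ico (2 ^ (i - 1)) X) t t' := by
    simp only [h1]
    rw [sum_tile (fun y => ∑ n' ∈ Ico (2 ^ (i - 1)) X, ∑ t' ∈ range i, if wd w i t' n' = y then 1 else 0)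
      hw0 hw hX1 hX2, sum_comm]
    refine sum_congr rfl fun t _ => ?_
    unfold coll
    have h5 : ∀ n, ∑ n' ∈ Ico (2 ^ (i - 1)) X, ∑ t' ∈ range i, (if wd w i t' n' = wd w i t n then 1 else 0) =
        ∑ t' ∈ range i, ∑ n' ∈ Ico (2 ^ (i - 1)) X, (if wd w i t' n' = wd w i t n then 1 else 0) :=
      fun n => sum_comm
    simp only [card_filter]
    rw [sum_congr rfl fun n _ => h5 n]
    exact sum_comm
  exact_mod_cast h4

lemma block_dev {w i X : ℕ} (hw0 : 1 ≤ w) (hw : 2 * w ≤ i)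
    (hX1 : 2 ^ (i - 1) ≤ X) (hX2 : X ≤ 2 ^ i) :
    dev (yz w) (Ico (st w (2 ^ (i - 1))) (st w X)) ^ 2 ≤ 4 * i * 2 ^ (2 * i - w) := by
  have hlt : i - w < 2 ^ (i - w) := Nat.lt_two_pow_self
  have h1 := sum_coll (w := w) (i := i) (X := X) (by omega) hX2 (by omega)
  rw [dev_sq_eq, block_coll hw0 (by omega) hX1 hX2, block_card hw0 (by omega) hX1 hX2]
  push_cast at h1 ⊢
  linarith

end Q257.Champ
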