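import Mathlib
import Pool.Agent.Q257.Champ.Block

/-!
# The deviation of the words of length `w` up to `N`
-/

set_option autoImplicit false

open Finset

namespace Q257.Champ

lemma ell_le (m : ℕ) : ell (2 ^ m - 1) ≤ 2 ^ m * m := by
  unfold ell
  rw [Nat.sub_add_cancel Nat.one_le_two_pow]
  calc ∑ n ∈ range (2 ^ m), Nat.size n ≤ ∑ n ∈ range (2 ^ m), m := by
        refine sum_le_sum fun n hn => ?_
        rw [mem_range] at hn
        exact Nat.size_le.2 hn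
    _ = 2 ^ m * m := by rw [sum_const, card_range, smul_eq_mul]

lemma le_ell_pow (m : ℕ) : 2 ^ m * (m + 1) ≤ ell (2 ^ (m + 1) - 1) := by
  unfold ell
  rw [Nat.sub_add_cancel Nat.one_le_two_pow]
  calc 2 ^ m * (m + 1) = ∑ n ∈ Ico (2 ^ m) (2 ^ (m + 1)), (m + 1) := by
        rw [sum_const, Nat.card_Ico, smul_eq_mul, pow_succ]
        congr 1
        omega
    _ ≤ ∑ n ∈ Ico (2 ^ m) (2 ^ (m + 1)), Nat.size n := by
        refine sum_le_sum fun n hn => ?_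
        rw [mem_Ico] at hn
        exact Nat.lt_size.2 hn.1
    _ ≤ ∑ n ∈ range (2 ^ (m + 1)), Nat.size n := by
        apply sum_le_sum_of_subset
        intro n hn
        rw [mem_Ico] at hn
        rw [mem_range]
        exact hn.2

lemma dev_Ico_le {D : ℕ} [NeZero D] (y : ℕ → ZMod D) {a b c : ℕ} (h1 : a ≤ b) (h2 : b ≤ c) :
    dev y (Ico a c) ≤ dev y (Ico a b) + dev y (Ico b c) := by
  rw [← Ico_union_Ico_eq_Ico h1 h2]
  exact dev_union_le y _ _ (Ico_disjoint_Ico_consecutive a b c)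

lemma st_mono {w a b : ℕ} (h : a ≤ b) : st w a ≤ st w b := by
  unfold st
  have : ell (a - 1) ≤ ell (b - 1) := ell_mono (by omega)
  omega

lemma one_le_st {w i : ℕ} (hw : w ≤ i) (hi : 1 ≤ i) : 1 ≤ st w (2 ^ i) := by
  unfold st
  have h1 : 2 ^ i - 1 ≤ ell (2 ^ i - 1) := le_ell _
  have h2 : i < 2 ^ i := Nat.lt_two_pow_self
  have h3 : i + 1 ≤ 2 ^ i := h2
  have h4 : i ≤ ell (2 ^ i - 1) := by omega
  omega

lemma block_dev' {w i X : ℕ} (c : ℝ) (k : ℕ) (hc0 : 0 ≤ c) (hc : c ^ 2 = 4 * k / 2 ^ w) (hik : i ≤ k)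
    (hw0 : 1 ≤ w) (hw : 2 * w ≤ i) (hX1 : 2 ^ (i - 1) ≤ X) (hX2 : X ≤ 2 ^ i) :
    dev (yz w) (Ico (st w (2 ^ (i - 1))) (st w X)) ≤ c * 2 ^ i := by
  have h1 := block_dev hw0 hw hX1 hX2
  have h2 : (4 : ℝ) * i * 2 ^ (2 * i - w) ≤ (c * 2 ^ i) ^ 2 := by
    have h3 : (2 : ℝ) ^ (2 * i - w) = (2 ^ i) ^ 2 / 2 ^ w := by
      rw [eq_div_iff (by positivity), ← pow_add, ← pow_mul]
      congr 1
      omega
    rw [h3, mul_pow, hc]
    have h4 : (i : ℝ) ≤ k := by exact_mod_cast hik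
    rw [show (4 : ℝ) * i * ((2 ^ i) ^ 2 / 2 ^ w) = 4 * i / 2 ^ w * (2 ^ i) ^ 2 by ring]
    gcongr
  exact (pow_le_pow_iff_left₀ (dev_nonneg _ _) (by positivity) two_ne_zero).1 (h1.trans h2)

lemma full_dev {w : ℕ} (c : ℝ) (k : ℕ) (hc0 : 0 ≤ c) (hc : c ^ 2 = 4 * k / 2 ^ w) (hw0 : 1 ≤ w)
    (j : ℕ) (hj : 2 * w ≤ j) (hjk : j ≤ k) :
    dev (yz w) (Ico 1 (st w (2 ^ (j - 1)))) ≤ w * 4 ^ w + c * 2 ^ j := by
  induction j, hj using Nat.le_induction with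
  | base =>
    refine (dev_le_card _ _).trans ?_
    rw [Nat.card_Ico]
    have h1 : st w (2 ^ (2 * w - 1)) - 1 ≤ w * 4 ^ w := by
      have h2 := ell_le (2 * w - 1)
      unfold st
      have h3 : w * 4 ^ w = 2 ^ (2 * w - 1) * (2 * w) := by
        have h4 : 4 ^ w = 2 * 2 ^ (2 * w - 1) := by
          rw [← pow_succ', show (4 : ℕ) = 2 ^ 2 by norm_num, ← pow_mul]
          congr 1
          omega
        rw [h4]
        ring
      have h5 : 2 ^ (2 * w - 1) * (2 * w - 1) ≤ 2 ^ (2 * w - 1) * (2 * w) :=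
        Nat.mul_le_mul_left _ (by omega)
      omega
    have h2 : ((st w (2 ^ (2 * w - 1)) - 1 : ℕ) : ℝ) ≤ w * 4 ^ w := by exact_mod_cast h1
    have h3 : 0 ≤ c * 2 ^ (2 * w) := by positivity
    linarith
  | succ j hj ih =>
    have h1 := ih (by omega)
    have h2 := dev_Ico_le (yz w) (one_le_st (w := w) (i := j - 1) (by omega) (by omega))
      (st_mono (w := w) (Nat.pow_le_pow_right (n := 2) (by norm_num) (by omega : j - 1 ≤ j)))
    have h3 := block_dev' (i := j) (X := 2 ^ j) c k hc0 hc (by omega) hw0 hj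
      (Nat.pow_le_pow_right (by norm_num) (by omega)) le_rfl
    rw [Nat.add_sub_cancel, pow_succ]
    linarith

theorem total {N M k w : ℕ} (hk : Nat.size M = k) (hw : w = k / 16) (hw0 : 1 ≤ w)
    (h1 : ell (M - 1) ≤ N) (h2 : N < ell M) :
    2 ^ w * dev (yz w) (Icc 1 N) ^ 2 ≤ 4032 / k * (N : ℝ) ^ 2 := by
  have hk16 : 16 * w ≤ k := by omega
  have hM2 : M < 2 ^ k := by rw [← hk]; exact Nat.lt_size_self M
  have hM1 : 2 ^ (k - 1) ≤ M := by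
    apply Nat.lt_size.1
    omega
  set c : ℝ := Real.sqrt (4 * k / 2 ^ w) with hc
  have hc0 : 0 ≤ c := Real.sqrt_nonneg _
  have hc2 : c ^ 2 = 4 * k / 2 ^ w := Real.sq_sqrt (by positivity)
  have hd1 := full_dev c k hc0 hc2 hw0 k (by omega) le_rfl
  have hd2 := block_dev' (i := k) (X := M) c k hc0 hc2 le_rfl hw0 (by omega) hM1 hM2.le
  have hst : st w M ≤ N + 1 := by
    unfold st
    omega
  have hd3 : dev (yz w) (Ico (st w M) (N + 1)) ≤ k + w := by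
    refine (dev_le_card _ _).trans ?_
    rw [Nat.card_Ico]
    have h3 : ell M = ell (M - 1) + k := by
      obtain ⟨m, rfl⟩ : ∃ m, M = m + 1 := ⟨M - 1, by
        have : 1 ≤ M := Nat.one_le_two_pow.trans hM1
        omega⟩
      rw [ell_succ, hk, Nat.add_sub_cancel]
    have h4 : N + 1 - st w M ≤ k + w := by
      unfold st
      omega
    exact_mod_cast h4
  have hd4 := dev_Ico_le (yz w) (one_le_st (w := w) (i := k - 1) (by omega) (by omega))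
      (st_mono (w := w) hM1)
  have hd5 := dev_Ico_le (yz w) ((one_le_st (w := w) (i := k - 1) (by omega) (by omega)).trans
    (st_mono (w := w) hM1)) hst
  have hIcc : Icc 1 N = Ico 1 (N + 1) := by ext; simp only [mem_Icc, mem_Ico]; omega
  rw [← hIcc] at hd5
  set d := dev (yz w) (Icc 1 N) with hd
  have hdn : 0 ≤ d := dev_nonneg _ _
  have hkey : d ≤ w * 4 ^ w + 2 * c * 2 ^ k + (k + w) := by linarith
  have hsq : d ^ 2 ≤ 3 * ((w * 4 ^ w) ^ 2 + (2 * c * 2 ^ k) ^ 2 + (k + w) ^ 2) := by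
    have h3 : d ^ 2 ≤ (w * 4 ^ w + 2 * c * 2 ^ k + (k + w)) ^ 2 := pow_le_pow_left₀ hdn hkey 2
    nlinarith [sq_nonneg ((w : ℝ) * 4 ^ w - 2 * c * 2 ^ k), sq_nonneg ((w : ℝ) * 4 ^ w - (k + w)),
      sq_nonneg (2 * c * 2 ^ k - ((k : ℝ) + w))]
  -- the bound
  have hwk : (w : ℝ) ≤ k := by exact_mod_cast (by omega : w ≤ k)
  have hw0' : (0 : ℝ) ≤ w := by positivity
  have hk1 : (16 : ℝ) ≤ k := by exact_mod_cast (by omega : 16 ≤ k)
  have e1 : (2 : ℝ) ^ w * (w * 4 ^ w) ^ 2 ≤ k ^ 2 * 2 ^ k := by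
    have h3 : (2 : ℝ) ^ w * (w * 4 ^ w) ^ 2 = w ^ 2 * 2 ^ (5 * w) := by
      rw [mul_pow, show (4 : ℝ) = 2 ^ 2 by norm_num, ← pow_mul, ← pow_mul,
        show 5 * w = w + 2 * w * 2 by ring, pow_add]
      ring
    rw [h3]
    have h4 : (2 : ℝ) ^ (5 * w) ≤ 2 ^ k := pow_le_pow_right₀ (by norm_num) (by omega)
    gcongr
  have e2 : (2 : ℝ) ^ w * (2 * c * 2 ^ k) ^ 2 = 16 * k * 4 ^ k := by
    rw [mul_pow, mul_pow, hc2, show (4 : ℝ) ^ k = (2 ^ k) ^ 2 by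
      rw [← pow_mul, mul_comm k 2, pow_mul]; norm_num]
    field_simp
    norm_num
  have e3 : (2 : ℝ) ^ w * ((k : ℝ) + w) ^ 2 ≤ 4 * k ^ 2 * 2 ^ k := by
    have h4 : (2 : ℝ) ^ w ≤ 2 ^ k := pow_le_pow_right₀ (by norm_num) (by omega)
    have h5 : ((k : ℝ) + w) ^ 2 ≤ 4 * k ^ 2 := by nlinarith
    calc (2 : ℝ) ^ w * ((k : ℝ) + w) ^ 2 ≤ 2 ^ k * (4 * k ^ 2) := by gcongr
      _ = _ := by ring
  have e4 : (2 : ℝ) ^ w * d ^ 2 ≤ 48 * k * 4 ^ k + 15 * k ^ 2 * 2 ^ k := by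
    have h3 : (2 : ℝ) ^ w * d ^ 2 ≤ 2 ^ w * (3 * ((w * 4 ^ w) ^ 2 + (2 * c * 2 ^ k) ^ 2 + (k + w) ^ 2)) := by
      gcongr
    nlinarith
  have hN : (k : ℝ) ^ 2 * 4 ^ k ≤ 64 * (N : ℝ) ^ 2 := by
    have h3 : 2 ^ (k - 2) * (k - 1) ≤ N := by
      have h4 := le_ell_pow (k - 2)
      have h5 : k - 2 + 1 = k - 1 := by omega
      rw [h5] at h4
      have h6 : ell (2 ^ (k - 1) - 1) ≤ ell (M - 1) := ell_mono (by omega)
      omega
    have h4 : k * 2 ^ k ≤ 8 * N := by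
      have h5 : 2 ^ k = 4 * 2 ^ (k - 2) := by
        rw [show (4 : ℕ) = 2 ^ 2 by norm_num, ← pow_add]
        congr 1
        omega
      have h6 : k ≤ 2 * (k - 1) := by omega
      calc k * 2 ^ k ≤ (2 * (k - 1)) * (4 * 2 ^ (k - 2)) := by rw [h5]; exact Nat.mul_le_mul_right _ h6
        _ = 8 * (2 ^ (k - 2) * (k - 1)) := by ring
        _ ≤ 8 * N := by omega
    have h5 : (k : ℝ) * 2 ^ k ≤ 8 * N := by exact_mod_cast h4
    have h6 : ((k : ℝ) * 2 ^ k) ^ 2 ≤ (8 * N) ^ 2 := pow_le_pow_left₀ (by positivity) h5 2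
    have h7 : (4 : ℝ) ^ k = (2 ^ k) ^ 2 := by
      rw [← pow_mul, mul_comm k 2, pow_mul]; norm_num
    rw [h7]
    nlinarith
  have e5 : 15 * (k : ℝ) ^ 2 * 2 ^ k ≤ 15 * k * 4 ^ k := by
    have h3 : (k : ℝ) ≤ 2 ^ k := by exact_mod_cast Nat.lt_two_pow_self.le
    have h7 : (4 : ℝ) ^ k = 2 ^ k * 2 ^ k := by
      rw [← mul_pow]; norm_num
    rw [h7]
    have h8 : (0 : ℝ) ≤ 15 * k * 2 ^ k := by positivity
    nlinarith
  have e6 : (2 : ℝ) ^ w * d ^ 2 ≤ 63 * (k * 4 ^ k) := by linarith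
  have e7 : (k : ℝ) * 4 ^ k ≤ 64 / k * (N : ℝ) ^ 2 := by
    rw [div_mul_eq_mul_div, le_div_iff₀ (by linarith)]
    linarith
  calc (2 : ℝ) ^ w * d ^ 2 ≤ 63 * (k * 4 ^ k) := e6
    _ ≤ 63 * (64 / k * (N : ℝ) ^ 2) := by gcongr
    _ = 4032 / k * (N : ℝ) ^ 2 := by ring

lemma ell_lt (M : ℕ) : ell M ≤ 2 ^ Nat.size M * Nat.size M := by
  refine (ell_mono ?_).trans (ell_le (Nat.size M))
  have := Nat.lt_size_self M
  omega

theorem eventually_dev (ε : ℝ) (hε : 0 < ε) : ∀ᶠ N : ℕ in Filter.atTop, ∃ w : ℕ,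
    2 ^ w * dev (yz w) (Icc 1 N) ^ 2 ≤ ε * (N : ℝ) ^ 2 ∧ (N : ℝ) ^ (1 / 32 : ℝ) ≤ ε * 2 ^ w := by
  have hT : Filter.Tendsto (fun k : ℕ => (k : ℝ) / 2 ^ k) Filter.atTop (nhds 0) := by
    have := tendsto_pow_const_div_const_pow_of_one_lt 1 (by norm_num : (1 : ℝ) < 2)
    simpa using this
  have hev : ∀ᶠ k : ℕ in Filter.atTop, (k : ℝ) / 2 ^ k < ε ^ 32 / 2 ^ 30 :=
    hT.eventually (gt_mem_nhds (by positivity))
  obtain ⟨K1, hK1⟩ := Filter.eventually_atTop.1 hev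
  obtain ⟨K2, hK2⟩ := exists_nat_gt (4032 / ε)
  set K := max (max K1 K2) 16 with hK
  filter_upwards [Filter.eventually_ge_atTop (2 ^ K * K)] with N hN
  have hex : ∃ M, N < ell M := ⟨N + 1, by have := le_ell (N + 1); omega⟩
  classical
  set M := Nat.find hex with hM
  have hM2 : N < ell M := Nat.find_spec hex
  have hM1 : ell (M - 1) ≤ N := by
    by_cases h0 : M = 0
    · rw [h0]
      simp [ell]
    · have := Nat.find_min hex (m := M - 1) (by omega)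
      omega
  set k := Nat.size M with hk
  have hNk : N < 2 ^ k * k := lt_of_lt_of_le hM2 (ell_lt M)
  have hkK : K < k := by
    by_contra hcon
    push Not at hcon
    have h3 : 2 ^ k * k ≤ 2 ^ K * K := Nat.mul_le_mul (Nat.pow_le_pow_right (by norm_num) hcon) hcon
    omega
  have hkK1 : K1 ≤ k := by omega
  have hkK2 : K2 ≤ k := by omega
  have hk16 : 16 ≤ k := by omega
  refine ⟨k / 16, ?_, ?_⟩
  · refine (total hk.symm rfl (by omega) hM1 hM2).trans ?_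
    have hk0 : (0 : ℝ) < k := by exact_mod_cast (by omega : 0 < k)
    have h3 : (4032 : ℝ) / k ≤ ε := by
      rw [div_le_iff₀ hk0]
      rw [div_lt_iff₀ hε] at hK2
      have h4 : (K2 : ℝ) ≤ k := by exact_mod_cast hkK2
      nlinarith
    gcongr
  · have h3 := hK1 k hkK1
    rw [div_lt_iff₀ (by positivity), div_mul_eq_mul_div, lt_div_iff₀ (by positivity)] at h3
    have h4 : (2 : ℝ) ^ k * 2 ^ k ≤ 2 ^ 30 * 2 ^ (32 * (k / 16)) := by
      rw [← pow_add, ← pow_add]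
      exact pow_le_pow_right₀ (by norm_num) (by omega)
    have h5 : (N : ℝ) ≤ 2 ^ k * k := by exact_mod_cast hNk.le
    have h6 : (N : ℝ) ≤ (ε * 2 ^ (k / 16)) ^ 32 := by
      rw [mul_pow, ← pow_mul, mul_comm (k / 16) 32]
      have h7 : (k : ℝ) * 2 ^ 30 * 2 ^ k ≤ ε ^ 32 * 2 ^ k * 2 ^ k := by gcongr
      have h8 : ε ^ 32 * ((2 : ℝ) ^ k * 2 ^ k) ≤ ε ^ 32 * (2 ^ 30 * 2 ^ (32 * (k / 16))) := by gcongr
      nlinarith
    calc (N : ℝ) ^ (1 / 32 : ℝ) ≤ ((ε * 2 ^ (k / 16)) ^ 32) ^ (1 / 32 : ℝ) :=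
          Real.rpow_le_rpow (by positivity) h6 (by norm_num)
      _ = ε * 2 ^ (k / 16) := by
          rw [← Real.rpow_natCast, ← Real.rpow_mul (by positivity)]
          norm_num

end Q257.Champ
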