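import Mathlib
import Pool.Agent.Q257.Champ.Total

/-!
# Weak pair correlations of the sequence `{2 ^ n α}`
-/

set_option autoImplicit false

open Finset

namespace Q257.Champ

lemma ys_spec (w p : ℕ) : ∃ f : ℝ, 0 ≤ f ∧ f < 1 ∧ (2 : ℝ) ^ w * xs p = ys w p + f := by
  refine ⟨(2 : ℝ) ^ w * xs p - ys w p, ?_, ?_, by ring⟩
  · have := Nat.floor_le (mul_nonneg (by positivity : (0 : ℝ) ≤ 2 ^ w) (xs_nonneg p))
    unfold ys
    linarith
  · have := Nat.lt_floor_add_one ((2 : ℝ) ^ w * xs p)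
    unfold ys
    linarith

lemma yz_sub (w p q : ℕ) (u : ℤ) : yz w p - yz w q = (u : ZMod (2 ^ w)) ↔
    ∃ m : ℤ, (ys w p : ℤ) - ys w q = u + 2 ^ w * m := by
  unfold yz
  have h1 : ((ys w p : ℕ) : ZMod (2 ^ w)) - ((ys w q : ℕ) : ZMod (2 ^ w)) =
      (((ys w p : ℤ) - (ys w q : ℤ) : ℤ) : ZMod (2 ^ w)) := by push_cast; ring
  rw [h1, ZMod.intCast_eq_intCast_iff_dvd_sub]
  push_cast
  constructor
  · rintro ⟨m, hm⟩
    exact ⟨-m, by linear_combination -hm⟩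
  · rintro ⟨m, hm⟩
    exact ⟨-m, by linear_combination -hm⟩

lemma incl_upper {w p q : ℕ} {δ : ℝ} (hd : |xs p - xs q - round (xs p - xs q)| ≤ δ) :
    ∃ u : ℤ, u ∈ Icc (-((⌊δ * 2 ^ w⌋₊ + 1 : ℕ) : ℤ)) ((⌊δ * 2 ^ w⌋₊ + 1 : ℕ) : ℤ) ∧
      yz w p - yz w q = (u : ZMod (2 ^ w)) := by
  obtain ⟨f, hf0, hf1, hf⟩ := ys_spec w p
  obtain ⟨g, hg0, hg1, hg⟩ := ys_spec w q
  set m := round (xs p - xs q) with hm
  have hδ : 0 ≤ δ := (abs_nonneg _).trans hd
  set u : ℤ := (ys w p : ℤ) - ys w q - 2 ^ w * m with hu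
  have h2 : (0 : ℝ) < 2 ^ w := by positivity
  have hu' : (u : ℝ) = 2 ^ w * (xs p - xs q - m) - f + g := by
    rw [hu]
    push_cast
    linarith
  have h3 : |(2 : ℝ) ^ w * (xs p - xs q - m)| ≤ δ * 2 ^ w := by
    rw [abs_mul, abs_of_pos h2, mul_comm]
    gcongr
  rw [abs_le] at h3
  have hfl := Nat.lt_floor_add_one (δ * 2 ^ w)
  refine ⟨u, ?_, ?_⟩
  · rw [mem_Icc]
    constructor
    · have h4 : (-((⌊δ * 2 ^ w⌋₊ + 1 : ℕ) : ℤ) : ℝ) - 1 < u := by
        rw [hu']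
        push_cast
        linarith
      have h5 : -((⌊δ * 2 ^ w⌋₊ + 1 : ℕ) : ℤ) - 1 < u := by exact_mod_cast h4
      omega
    · have h4 : (u : ℝ) < (((⌊δ * 2 ^ w⌋₊ + 1 : ℕ) : ℤ) : ℝ) + 1 := by
        rw [hu']
        push_cast
        linarith
      have h5 : u < ((⌊δ * 2 ^ w⌋₊ + 1 : ℕ) : ℤ) + 1 := by exact_mod_cast h4
      omega
  · rw [yz_sub]
    exact ⟨m, by rw [hu]; ring⟩

lemma incl_lower {w p q h : ℕ} {δ : ℝ} (hh : (h : ℝ) + 1 ≤ δ * 2 ^ w) {u : ℤ}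
    (hu : u ∈ Icc (-(h : ℤ)) h) (hy : yz w p - yz w q = (u : ZMod (2 ^ w))) :
    |xs p - xs q - round (xs p - xs q)| ≤ δ := by
  obtain ⟨f, hf0, hf1, hf⟩ := ys_spec w p
  obtain ⟨g, hg0, hg1, hg⟩ := ys_spec w q
  obtain ⟨m, hm⟩ := (yz_sub w p q u).1 hy
  refine (round_le (xs p - xs q) m).trans ?_
  have h2 : (0 : ℝ) < 2 ^ w := by positivity
  have hm' : (ys w p : ℝ) - ys w q = u + 2 ^ w * m := by exact_mod_cast hm
  have h3 : (2 : ℝ) ^ w * (xs p - xs q - m) = u + f - g := by linarith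
  rw [mem_Icc] at hu
  have h4 : -(h : ℝ) ≤ u := by exact_mod_cast hu.1
  have h5 : (u : ℝ) ≤ h := by exact_mod_cast hu.2
  have h6 : |(2 : ℝ) ^ w * (xs p - xs q - m)| ≤ δ * 2 ^ w := by
    rw [h3, abs_le]
    constructor <;> linarith
  rw [abs_mul, abs_of_pos h2, mul_comm] at h6
  exact le_of_mul_le_mul_right h6 h2

/-- the number of the pairs of the positions up to `N` whose words differ by `u` -/
noncomputable def SS (w N : ℕ) (u : ℤ) : ℕ :=
  ((Icc 1 N ×ˢ Icc 1 N).filter (fun pq : ℕ × ℕ => yz w pq.1 - yz w pq.2 = (u : ZMod (2 ^ w)))).card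

lemma SS_bound (w N : ℕ) (u : ℤ) :
    |(SS w N u : ℝ) - (N : ℝ) ^ 2 / 2 ^ w| ≤ dev (yz w) (Icc 1 N) ^ 2 := by
  have h := corr (yz w) (Icc 1 N) (u : ZMod (2 ^ w))
  rw [← card_diff] at h
  unfold SS
  simpa using h

lemma pairs_upper (w N : ℕ) (β s : ℝ) :
    (pairs xs β s N : ℝ) ≤ (2 * ((⌊s * (N : ℝ) ^ (-β) * 2 ^ w⌋₊ + 1 : ℕ) : ℝ) + 1) *
      ((N : ℝ) ^ 2 / 2 ^ w + dev (yz w) (Icc 1 N) ^ 2) := by
  set h : ℕ := ⌊s * (N : ℝ) ^ (-β) * 2 ^ w⌋₊ + 1 with hh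
  have h1 : pairs xs β s N ≤ ∑ u ∈ Icc (-(h : ℤ)) (h : ℤ), SS w N u := by
    unfold pairs SS
    refine (card_le_card ?_).trans card_biUnion_le
    intro pq hpq
    rw [mem_filter] at hpq
    obtain ⟨u, hu, hy⟩ := incl_upper (w := w) hpq.2.2
    rw [mem_biUnion]
    exact ⟨u, hu, mem_filter.2 ⟨hpq.1, hy⟩⟩
  have h2 : (pairs xs β s N : ℝ) ≤ ∑ u ∈ Icc (-(h : ℤ)) (h : ℤ), (SS w N u : ℝ) := by exact_mod_cast h1
  have h4 : ∑ u ∈ Icc (-(h : ℤ)) (h : ℤ), (SS w N u : ℝ) ≤ ∑ u ∈ Icc (-(h : ℤ)) (h : ℤ),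
      ((N : ℝ) ^ 2 / 2 ^ w + dev (yz w) (Icc 1 N) ^ 2) := by
    refine sum_le_sum fun u _ => ?_
    have := (abs_le.1 (SS_bound w N u)).2
    linarith
  refine h2.trans (h4.trans (le_of_eq ?_))
  · rw [sum_const, Int.card_Icc, nsmul_eq_mul]
    congr 1
    have h3 : ((h : ℤ) + 1 - -(h : ℤ)).toNat = 2 * h + 1 := by omega
    rw [h3]
    push_cast
    ring

lemma pairs_lower (w N h : ℕ) (β s : ℝ) (hh : (h : ℝ) + 1 ≤ s * (N : ℝ) ^ (-β) * 2 ^ w)
    (h2 : 2 * h + 1 ≤ 2 ^ w) :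
    (2 * (h : ℝ) + 1) * ((N : ℝ) ^ 2 / 2 ^ w - dev (yz w) (Icc 1 N) ^ 2) - N ≤ (pairs xs β s N : ℝ) := by
  have h1 : ∑ u ∈ Icc (-(h : ℤ)) (h : ℤ), SS w N u ≤ pairs xs β s N + N := by
    unfold SS
    rw [← card_biUnion]
    · calc _ ≤ (((Finset.Icc 1 N ×ˢ Finset.Icc 1 N).filter (fun lm : ℕ × ℕ => lm.1 ≠ lm.2 ∧
          |xs lm.1 - xs lm.2 - round (xs lm.1 - xs lm.2)| ≤ s * (N : ℝ) ^ (-β))) ∪
          (Icc 1 N).image (fun p => (p, p))).card := by
            apply card_le_card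
            intro pq hpq
            rw [mem_biUnion] at hpq
            obtain ⟨u, hu, hpq⟩ := hpq
            rw [mem_filter] at hpq
            rw [mem_union]
            by_cases hne : pq.1 = pq.2
            · right
              rw [mem_image]
              have := hpq.1
              rw [mem_product] at this
              exact ⟨pq.1, this.1, by ext <;> simp [hne]⟩
            · left
              rw [mem_filter]
              exact ⟨hpq.1, hne, incl_lower hh hu hpq.2⟩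
        _ ≤ _ := by
            refine (card_union_le _ _).trans ?_
            unfold pairs
            have : ((Icc 1 N).image (fun p => (p, p))).card ≤ N := by
              refine card_image_le.trans ?_
              simp
            omega
    · intro u hu u' hu' hne
      rw [Function.onFun, disjoint_filter]
      intro pq _ hy hy'
      apply hne
      rw [hy, ZMod.intCast_eq_intCast_iff_dvd_sub] at hy'
      obtain ⟨m, hm⟩ := hy'
      rw [coe_Icc, Set.mem_Icc] at hu hu'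
      push_cast at hm
      have h3 : (2 * (h : ℤ) + 1) ≤ 2 ^ w := by exact_mod_cast h2
      have h4 : |(2 : ℤ) ^ w * m| < 2 ^ w := by
        rw [← hm, abs_lt]
        constructor <;> linarith [hu.1, hu.2, hu'.1, hu'.2]
      have h5 : m = 0 := by
        by_contra hm0
        have h6 : 1 ≤ |m| := Int.one_le_abs hm0
        rw [abs_mul, abs_of_pos (by positivity : (0 : ℤ) < 2 ^ w)] at h4
        nlinarith [(by positivity : (0 : ℤ) < 2 ^ w)]
      rw [h5, mul_zero] at hm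
      linarith
  have h3 : ∑ u ∈ Icc (-(h : ℤ)) (h : ℤ), ((N : ℝ) ^ 2 / 2 ^ w - dev (yz w) (Icc 1 N) ^ 2) ≤
      ∑ u ∈ Icc (-(h : ℤ)) (h : ℤ), (SS w N u : ℝ) := by
    refine sum_le_sum fun u _ => ?_
    have := (abs_le.1 (SS_bound w N u)).1
    linarith
  have h4 : ∑ u ∈ Icc (-(h : ℤ)) (h : ℤ), (SS w N u : ℝ) ≤ (pairs xs β s N : ℝ) + N := by
    exact_mod_cast h1
  rw [sum_const, Int.card_Icc, nsmul_eq_mul] at h3
  have h5 : ((h : ℤ) + 1 - -(h : ℤ)).toNat = 2 * h + 1 := by omega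
  rw [h5] at h3
  push_cast at h3
  linarith

theorem main : HasWeakPairCorrelations xs := by
  refine ⟨1 / 32, by norm_num, by norm_num, fun s hs => ?_⟩
  rw [Metric.tendsto_atTop]
  intro e he
  set ε : ℝ := min 1 (e / (2 * s + 8)) with hε
  have hε0 : 0 < ε := by
    rw [hε]
    apply lt_min <;> positivity
  have hε1 : ε ≤ 1 := min_le_left _ _
  have hε2 : (2 * s + 8) * ε ≤ e := by
    have : ε ≤ e / (2 * s + 8) := min_le_right _ _
    rw [le_div_iff₀ (by positivity)] at this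
    linarith
  -- the eventual facts
  have hA := eventually_dev ε hε0
  have hB : ∀ᶠ N : ℕ in Filter.atTop, s * (N : ℝ) ^ (-(1 / 32 : ℝ)) < 1 / 2 := by
    have h1 : Filter.Tendsto (fun N : ℕ => s * (N : ℝ) ^ (-(1 / 32 : ℝ))) Filter.atTop (nhds (s * 0)) :=
      ((tendsto_rpow_neg_atTop (by norm_num : (0 : ℝ) < 1 / 32)).comp
        tendsto_natCast_atTop_atTop).const_mul s
    rw [mul_zero] at h1
    exact h1.eventually (gt_mem_nhds (by norm_num))
  have hC : ∀ᶠ N : ℕ in Filter.atTop, (N : ℝ) ^ (-(31 / 32 : ℝ)) < ε := by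
    have h1 : Filter.Tendsto (fun N : ℕ => (N : ℝ) ^ (-(31 / 32 : ℝ))) Filter.atTop (nhds 0) :=
      (tendsto_rpow_neg_atTop (by norm_num : (0 : ℝ) < 31 / 32)).comp tendsto_natCast_atTop_atTop
    exact h1.eventually (gt_mem_nhds hε0)
  have hall := hA.and (hB.and (hC.and (Filter.eventually_ge_atTop 1)))
  obtain ⟨N0, hN0⟩ := Filter.eventually_atTop.1 hall
  refine ⟨N0, fun N hN => ?_⟩
  obtain ⟨⟨w, hw1, hw2⟩, hδ, hN1, hNpos⟩ := hN0 N hN
  have hNr : (0 : ℝ) < N := by exact_mod_cast (by omega : 0 < N)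
  set δ : ℝ := s * (N : ℝ) ^ (-(1 / 32 : ℝ)) with hδdef
  set D : ℝ := 2 ^ w with hD
  have hD0 : 0 < D := by rw [hD]; positivity
  have hδ0 : 0 ≤ δ := by rw [hδdef]; positivity
  set E : ℝ := dev (yz w) (Icc 1 N) ^ 2 with hE
  have hE0 : 0 ≤ E := by rw [hE]; positivity
  -- powers of `N`
  set b : ℝ := (N : ℝ) ^ (1 / 32 : ℝ) with hb
  have hb0 : 0 < b := by rw [hb]; positivity
  have hb1 : (N : ℝ) ^ (-(1 / 32 : ℝ)) = b⁻¹ := by rw [Real.rpow_neg hNr.le]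
  have hb2 : (N : ℝ) ^ (-(2 - 1 / 32 : ℝ)) = b / (N : ℝ) ^ 2 := by
    rw [show (-(2 - 1 / 32 : ℝ)) = 1 / 32 - (2 : ℕ) by norm_num, Real.rpow_sub hNr, Real.rpow_natCast]
  have hb3 : (N : ℝ) ^ (-(31 / 32 : ℝ)) = b / N := by
    rw [show (-(31 / 32 : ℝ)) = 1 / 32 - 1 by norm_num, Real.rpow_sub hNr, Real.rpow_one]
  rw [hb3] at hN1
  have hδb : δ * b = s := by
    rw [hδdef, hb1]
    field_simp
  have hbD : b / D ≤ ε := by
    rw [div_le_iff₀ hD0]
    exact hw2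
  have hED : D * E ≤ ε * (N : ℝ) ^ 2 := hw1
  have hE2 : E ≤ ε * ((N : ℝ) ^ 2 / D) := by
    rw [← mul_div_assoc, le_div_iff₀ hD0]
    linarith
  -- upper bound
  have hup : (N : ℝ) ^ (-(2 - 1 / 32 : ℝ)) * (pairs xs (1 / 32) s N : ℝ) ≤ (2 * s + 3 * ε) * (1 + ε) := by
    have h1 := pairs_upper w N (1 / 32) s
    rw [← hδdef, ← hD, ← hE] at h1
    have h2 : ((⌊δ * D⌋₊ + 1 : ℕ) : ℝ) ≤ δ * D + 1 := by
      push_cast
      have := Nat.floor_le (mul_nonneg hδ0 hD0.le)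
      linarith
    have h3 : (pairs xs (1 / 32) s N : ℝ) ≤ (2 * δ * D + 3) * ((N : ℝ) ^ 2 / D * (1 + ε)) := by
      refine h1.trans ?_
      have h4 : 0 ≤ (N : ℝ) ^ 2 / D + E := by positivity
      have h5 : (N : ℝ) ^ 2 / D + E ≤ (N : ℝ) ^ 2 / D * (1 + ε) := by linarith
      calc _ ≤ (2 * δ * D + 3) * ((N : ℝ) ^ 2 / D + E) := by
            apply mul_le_mul_of_nonneg_right _ h4
            linarith
        _ ≤ _ := by
            apply mul_le_mul_of_nonneg_left h5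
            positivity
    rw [hb2]
    calc b / (N : ℝ) ^ 2 * (pairs xs (1 / 32) s N : ℝ) ≤
        b / (N : ℝ) ^ 2 * ((2 * δ * D + 3) * ((N : ℝ) ^ 2 / D * (1 + ε))) := by gcongr
      _ = (2 * (δ * b) + 3 * (b / D)) * (1 + ε) := by
          field_simp
      _ ≤ (2 * s + 3 * ε) * (1 + ε) := by
          rw [hδb]
          gcongr
  -- lower bound
  have hlow : (2 * s - 3 * ε) * (1 - ε) - ε ≤ (N : ℝ) ^ (-(2 - 1 / 32 : ℝ)) * (pairs xs (1 / 32) s N : ℝ) := by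
    have h3 : (2 * δ * D - 3) * ((N : ℝ) ^ 2 / D * (1 - ε)) - N ≤ (pairs xs (1 / 32) s N : ℝ) := by
      have h6 : 0 ≤ (N : ℝ) ^ 2 / D * (1 - ε) := by
        apply mul_nonneg (by positivity)
        linarith
      by_cases hfl : ⌊δ * D⌋₊ = 0
      · have h4 : δ * D < 1 := by
          have := Nat.lt_floor_add_one (δ * D)
          rw [hfl] at this
          push_cast at this
          linarith
        have h5 : (2 * δ * D - 3) * ((N : ℝ) ^ 2 / D * (1 - ε)) ≤ 0 :=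
          mul_nonpos_of_nonpos_of_nonneg (by linarith) h6
        have h7 : (0 : ℝ) ≤ (pairs xs (1 / 32) s N : ℝ) := by positivity
        linarith
      · obtain ⟨h, hh⟩ : ∃ h, ⌊δ * D⌋₊ = h + 1 := ⟨⌊δ * D⌋₊ - 1, by omega⟩
        have h4 : (h : ℝ) + 1 ≤ δ * D := by
          have := Nat.floor_le (mul_nonneg hδ0 hD0.le)
          rw [hh] at this
          push_cast at this
          linarith
        have h5 : δ * D < (h : ℝ) + 2 := by
          have := Nat.lt_floor_add_one (δ * D)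
          rw [hh] at this
          push_cast at this
          linarith
        have h7 : 2 * h + 1 ≤ 2 ^ w := by
          have h8 : (2 * (h : ℝ) + 1) ≤ 2 ^ w := by
            rw [← hD]
            nlinarith
          exact_mod_cast h8
        have h8 := pairs_lower w N h (1 / 32) s (by rw [← hδdef, ← hD]; exact h4) h7
        rw [← hD, ← hE] at h8
        have h9 : (N : ℝ) ^ 2 / D * (1 - ε) ≤ (N : ℝ) ^ 2 / D - E := by linarith
        have h10 : (2 * δ * D - 3) * ((N : ℝ) ^ 2 / D * (1 - ε)) ≤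
            (2 * (h : ℝ) + 1) * ((N : ℝ) ^ 2 / D * (1 - ε)) := by
          apply mul_le_mul_of_nonneg_right _ h6
          linarith
        have h11 : (2 * (h : ℝ) + 1) * ((N : ℝ) ^ 2 / D * (1 - ε)) ≤
            (2 * (h : ℝ) + 1) * ((N : ℝ) ^ 2 / D - E) := by
          apply mul_le_mul_of_nonneg_left h9
          positivity
        linarith
    rw [hb2]
    have h4 : b / (N : ℝ) ^ 2 * ((2 * δ * D - 3) * ((N : ℝ) ^ 2 / D * (1 - ε)) - N) ≤
        b / (N : ℝ) ^ 2 * (pairs xs (1 / 32) s N : ℝ) := by gcongr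
    have h5 : b / (N : ℝ) ^ 2 * ((2 * δ * D - 3) * ((N : ℝ) ^ 2 / D * (1 - ε)) - N) =
        (2 * (δ * b) - 3 * (b / D)) * (1 - ε) - b / N := by
      field_simp
    rw [h5, hδb] at h4
    have h6 : (2 * s - 3 * ε) * (1 - ε) ≤ (2 * s - 3 * (b / D)) * (1 - ε) := by
      apply mul_le_mul_of_nonneg_right _ (by linarith)
      linarith
    linarith
  rw [Real.dist_eq, abs_lt]
  constructor <;> nlinarith

end Q257.Champ
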